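import Mathlib.LinearAlgebra.Dimension.Finite
import Mathlib.LinearAlgebra.FiniteDimensional.Lemmas
import Mathlib.LinearAlgebra.FreeModule.Finite.Basic
import Mathlib.Analysis.Complex.Basic
import Mathlib.Tactic

set_option autoImplicit false
set_option linter.unusedSectionVars false
set_option linter.unusedSimpArgs false
set_option linter.unusedVariables false

/-!
# Families of commuting simple Lie algebras of operators

The lemmas of Goursat, Kolchin and Ribet for Lie subalgebras.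
-/

open Module

noncomputable section

namespace Pool.Agent.D0H89.GC

variable {R : Type} [Ring R] [Algebra ℂ R] {I : Type} [Fintype I] [DecidableEq I]

/-- `z` commutes with the elements of `L`. -/
def Cm (L : Submodule ℂ R) (z : R) : Prop := ∀ a ∈ L, z * a = a * z

section Cm

variable {L : Submodule ℂ R} {z w : R}

theorem Cm.add (hz : Cm L z) (hw : Cm L w) : Cm L (z + w) :=
  fun a ha => by rw [add_mul, mul_add, hz a ha, hw a ha]

theorem Cm.sub (hz : Cm L z) (hw : Cm L w) : Cm L (z - w) :=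
  fun a ha => by rw [sub_mul, mul_sub, hz a ha, hw a ha]

theorem Cm.smul (c : ℂ) (hz : Cm L z) : Cm L (c • z) :=
  fun a ha => by rw [smul_mul_assoc, mul_smul_comm, hz a ha]

theorem Cm.zero : Cm L (0 : R) := fun a _ => by rw [zero_mul, mul_zero]

theorem Cm.mul (hz : Cm L z) (hw : Cm L w) : Cm L (z * w) :=
  fun a ha => by rw [mul_assoc, hw a ha, ← mul_assoc, hz a ha, mul_assoc]

end Cm

/-- `z` commutes with all colours. -/
def CmA (K : I → Submodule ℂ R) (z : R) : Prop := ∀ i, Cm (K i) z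

/-- The elements `ξ i` of the colours are the components of `X`. -/
structure Dec (K : I → Submodule ℂ R) (X : R) (ξ : I → R) : Prop where
  mem : ∀ i, ξ i ∈ K i
  rest : CmA K (X - ∑ i, ξ i)

/-- A family of commuting simple Lie algebras. -/
structure Cb (K : I → Submodule ℂ R) (M : Submodule ℂ R) : Prop where
  le : ∀ i, K i ≤ M
  br : ∀ i, ∀ a ∈ K i, ∀ b ∈ K i, a * b - b * a ∈ K i
  simple : ∀ i, ∀ L ≤ K i, (∀ a ∈ K i, ∀ b ∈ L, a * b - b * a ∈ L) → L = ⊥ ∨ L = K i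
  nab : ∀ i, ∃ a ∈ K i, ∃ b ∈ K i, a * b - b * a ≠ 0
  comm : ∀ i k, i ≠ k → ∀ a ∈ K i, ∀ b ∈ K k, a * b = b * a

/-- A family of commuting simple Lie algebras; the elements of `M` have components. -/
structure Cl (K : I → Submodule ℂ R) (M : Submodule ℂ R) : Prop extends Cb K M where
  dec : ∀ X ∈ M, ∃ ξ, Dec K X ξ

section basic

variable {K : I → Submodule ℂ R}

theorem CmA.sum {z : R} (hz : CmA K z) {ξ : I → R} (hξ : ∀ i, ξ i ∈ K i) :
    z * ∑ i, ξ i = (∑ i, ξ i) * z := by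
  rw [Finset.mul_sum, Finset.sum_mul]
  exact Finset.sum_congr rfl fun i _ => hz i _ (hξ i)

theorem Dec.add {X Y : R} {ξ η : I → R} (h1 : Dec K X ξ) (h2 : Dec K Y η) :
    Dec K (X + Y) (ξ + η) := by
  refine ⟨fun i => (K i).add_mem (h1.mem i) (h2.mem i), fun i => ?_⟩
  have h3 := (h1.rest i).add (h2.rest i)
  have h4 : X + Y - ∑ i, (ξ + η) i = X - ∑ i, ξ i + (Y - ∑ i, η i) := by
    simp only [Pi.add_apply, Finset.sum_add_distrib]
    abel
  rwa [h4]

theorem Dec.smul {X : R} {ξ : I → R} (c : ℂ) (h1 : Dec K X ξ) : Dec K (c • X) (c • ξ) := by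
  refine ⟨fun i => (K i).smul_mem c (h1.mem i), fun i => ?_⟩
  have h3 := (h1.rest i).smul c
  have h4 : c • X - ∑ i, (c • ξ) i = c • (X - ∑ i, ξ i) := by
    simp only [Pi.smul_apply, smul_sub, Finset.smul_sum]
  rwa [h4]

theorem Dec.zero : Dec K (0 : R) 0 := by
  refine ⟨fun i => (K i).zero_mem, fun i => ?_⟩
  have h4 : (0 : R) - ∑ i, (0 : I → R) i = 0 := by simp
  rw [h4]
  exact Cm.zero

/-- The components of the elements of `L`. -/
def XK (K : I → Submodule ℂ R) (L : Submodule ℂ R) : Submodule ℂ (I → R) where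
  carrier := {ξ | ∃ X ∈ L, Dec K X ξ}
  zero_mem' := ⟨0, L.zero_mem, Dec.zero⟩
  add_mem' := fun ⟨X, h1, h2⟩ ⟨Y, h3, h4⟩ => ⟨X + Y, L.add_mem h1 h3, h2.add h4⟩
  smul_mem' := fun c _ ⟨X, h1, h2⟩ => ⟨c • X, L.smul_mem c h1, h2.smul c⟩

/-- The colours `i` and `k` are linked by `L`. -/
def Lk (K : I → Submodule ℂ R) (L : Submodule ℂ R) (i k : I) : Prop :=
  ∀ X ∈ L, Cm (K k) X → Cm (K i) X

end basic

namespace Cb

variable {K : I → Submodule ℂ R} {M : Submodule ℂ R} (h : Cb K M)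
include h

theorem centre {i : I} {a : R} (ha : a ∈ K i) (hc : Cm (K i) a) : a = 0 := by
  let Z : Submodule ℂ R :=
    { carrier := {a | a ∈ K i ∧ Cm (K i) a}
      zero_mem' := ⟨(K i).zero_mem, Cm.zero⟩
      add_mem' := fun ⟨h1, h2⟩ ⟨h3, h4⟩ => ⟨(K i).add_mem h1 h3, h2.add h4⟩
      smul_mem' := fun c _ ⟨h1, h2⟩ => ⟨(K i).smul_mem c h1, h2.smul c⟩ }
  have hZ : ∀ x, x ∈ Z ↔ x ∈ K i ∧ Cm (K i) x := fun x => Iff.rfl
  rcases h.simple i Z (fun x hx => ((hZ x).1 hx).1) (fun x hx y hy => by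
      rw [((hZ y).1 hy).2 x hx, sub_self]
      exact Z.zero_mem) with h1 | h1
  · have h2 : a ∈ Z := (hZ a).2 ⟨ha, hc⟩
    rwa [h1, Submodule.mem_bot] at h2
  · exfalso
    obtain ⟨x, hx, y, hy, hne⟩ := h.nab i
    have h2 : x ∈ Z := by rw [h1]; exact hx
    exact hne (sub_eq_zero.2 (((hZ x).1 h2).2 y hy))

theorem perfect (i : I) :
    K i ≤ Submodule.span ℂ {z | ∃ x ∈ K i, ∃ y ∈ K i, z = x * y - y * x} := by
  have h0 : Submodule.span ℂ {z | ∃ x ∈ K i, ∃ y ∈ K i, z = x * y - y * x} ≤ K i := by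
    rw [Submodule.span_le]
    rintro _ ⟨x, hx, y, hy, rfl⟩
    exact h.br i x hx y hy
  rcases h.simple i _ h0 (fun x hx y hy => Submodule.subset_span ⟨x, hx, y, h0 hy, rfl⟩)
    with h1 | h1
  · exfalso
    obtain ⟨x, hx, y, hy, hne⟩ := h.nab i
    have h2 : x * y - y * x ∈ Submodule.span ℂ {z | ∃ x ∈ K i, ∃ y ∈ K i, z = x * y - y * x} :=
      Submodule.subset_span ⟨x, hx, y, hy, rfl⟩
    rw [h1, Submodule.mem_bot] at h2
    exact hne h2
  · exact h1.ge

end Cb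

namespace Cl

variable {K : I → Submodule ℂ R} {M : Submodule ℂ R} (h : Cl K M)
include h

/-- The commutator with an element of a colour. -/
theorem br_col {X : R} {ξ : I → R} (h1 : Dec K X ξ) {i : I} {a : R} (ha : a ∈ K i) :
    X * a - a * X = ξ i * a - a * ξ i := by
  have e2 : X = (X - ∑ i, ξ i) + ∑ i, ξ i := by abel
  have e3 := h1.rest i a ha
  have e4 : (∑ l, ξ l) * a - a * ∑ l, ξ l = ξ i * a - a * ξ i := by
    rw [Finset.sum_mul, Finset.mul_sum, ← Finset.sum_sub_distrib, Finset.sum_eq_single i]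
    · intro k _ hk
      rw [h.comm k i hk _ (h1.mem k) a ha, sub_self]
    · intro h4
      exact absurd (Finset.mem_univ _) h4
  conv_lhs => rw [e2]
  rw [add_mul, mul_add, e3, ← e4]
  abel

/-- The component is zero if and only if the element commutes with the colour. -/
theorem comp_zero {X : R} {ξ : I → R} (h1 : Dec K X ξ) (i : I) : ξ i = 0 ↔ Cm (K i) X := by
  constructor
  · intro h2 a ha
    have h3 := h.br_col h1 ha
    rw [h2, zero_mul, mul_zero, sub_zero] at h3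
    exact sub_eq_zero.1 h3
  · intro h2
    refine h.centre (h1.mem i) fun a ha => ?_
    have h3 := h.br_col h1 ha
    rw [h2 a ha, sub_self] at h3
    exact sub_eq_zero.1 h3.symm

/-- Uniqueness of the components. -/
theorem uniq {X : R} {ξ η : I → R} (h1 : Dec K X ξ) (h2 : Dec K X η) : ξ = η := by
  have h3 : Dec K (X + (-1 : ℂ) • X) (ξ + (-1 : ℂ) • η) := h1.add (h2.smul _)
  have h4 : X + (-1 : ℂ) • X = 0 := by rw [neg_one_smul]; abel
  rw [h4] at h3
  funext i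
  have h5 := (h.comp_zero h3 i).2 Cm.zero
  rw [Pi.add_apply, Pi.smul_apply, neg_one_smul, ← sub_eq_add_neg] at h5
  exact sub_eq_zero.1 h5

theorem dec_col {i : I} {x : R} (hx : x ∈ K i) : Dec K x (Pi.single i x) := by
  refine ⟨fun k => ?_, fun k => ?_⟩
  · by_cases hk : k = i
    · subst hk
      rw [Pi.single_eq_same]
      exact hx
    · rw [Pi.single_eq_of_ne hk]
      exact (K k).zero_mem
  · have h1 : ∑ k, Pi.single (M := fun _ => R) i x k = x := by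
      rw [Finset.sum_eq_single i]
      · rw [Pi.single_eq_same]
      · intro k _ hk
        rw [Pi.single_eq_of_ne hk]
      · intro h4
        exact absurd (Finset.mem_univ _) h4
    rw [h1, sub_self]
    exact Cm.zero

theorem comp_col {X : R} {ξ : I → R} (h1 : Dec K X ξ) {i : I} {x : R} (hx : x ∈ K i) :
    ξ i = x ↔ Cm (K i) (X - x) := by
  have h2 : Dec K (X + (-1 : ℂ) • x) (ξ + (-1 : ℂ) • Pi.single (M := fun _ => R) i x) :=
    h1.add ((h.dec_col hx).smul _)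
  have h3 : X + (-1 : ℂ) • x = X - x := by rw [neg_one_smul]; abel
  rw [h3] at h2
  rw [← h.comp_zero h2 i, Pi.add_apply, Pi.smul_apply, neg_one_smul, ← sub_eq_add_neg,
    Pi.single_eq_same, sub_eq_zero]

/-- The commutator of elements. -/
theorem dec_br {X Y : R} {ξ η : I → R} (h1 : Dec K X ξ) (h2 : Dec K Y η) :
    Dec K (X * Y - Y * X) (fun i => ξ i * η i - η i * ξ i) := by
  refine ⟨fun i => h.br i _ (h1.mem i) _ (h2.mem i), ?_⟩
  obtain ⟨P, hP⟩ : ∃ P, P = ∑ i, ξ i := ⟨_, rfl⟩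
  obtain ⟨Q, hQ⟩ : ∃ Q, Q = ∑ i, η i := ⟨_, rfl⟩
  obtain ⟨z, hz⟩ : ∃ z, z = X - P := ⟨_, rfl⟩
  obtain ⟨w, hw⟩ : ∃ w, w = Y - Q := ⟨_, rfl⟩
  have hzc : CmA K z := by rw [hz, hP]; exact h1.rest
  have hwc : CmA K w := by rw [hw, hQ]; exact h2.rest
  have e1 : z * Q = Q * z := by rw [hQ]; exact hzc.sum h2.mem
  have e3 : w * P = P * w := by rw [hP]; exact hwc.sum h1.mem
  have hXe : X = P + z := by rw [hz]; abel
  have hYe : Y = Q + w := by rw [hw]; abel
  have hbr : P * Q - Q * P = ∑ i, (ξ i * η i - η i * ξ i) := by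
    rw [hP, hQ, Finset.sum_mul_sum, Finset.sum_mul_sum, Finset.sum_comm,
      ← Finset.sum_sub_distrib]
    refine Finset.sum_congr rfl fun i _ => ?_
    rw [← Finset.sum_sub_distrib, Finset.sum_eq_single i]
    · intro k _ hk
      rw [h.comm k i hk _ (h1.mem k) _ (h2.mem i), sub_self]
    · intro h4
      exact absurd (Finset.mem_univ _) h4
  have h3 : X * Y - Y * X - ∑ i, (ξ i * η i - η i * ξ i) = z * w - w * z := by
    rw [← hbr, hXe, hYe, add_mul, mul_add, mul_add, add_mul, mul_add, mul_add, e1, e3]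
    abel
  intro i
  rw [h3]
  exact ((hzc i).mul (hwc i)).sub ((hwc i).mul (hzc i))

section Sub

variable {L : Submodule ℂ R} (hLM : L ≤ M)
  (hLbr : ∀ X ∈ L, ∀ Y ∈ L, X * Y - Y * X ∈ L)
  (hsur : ∀ i, ∀ x ∈ K i, ∃ ξ ∈ XK K L, ξ i = x)

include hLbr in
theorem XK_br : ∀ ξ ∈ XK K L, ∀ η ∈ XK K L, (fun l => ξ l * η l - η l * ξ l) ∈ XK K L := by
  rintro ξ ⟨X, hX, hξ⟩ η ⟨Y, hY, hη⟩
  exact ⟨_, hLbr X hX Y hY, h.dec_br hξ hη⟩

theorem lk_iff (hLM : L ≤ M) {i k : I} : Lk K L i k ↔ ∀ ξ ∈ XK K L, ξ k = 0 → ξ i = 0 := by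
  constructor
  · rintro h1 ξ ⟨X, hX, hξ⟩ h2
    exact (h.comp_zero hξ i).2 (h1 X hX ((h.comp_zero hξ k).1 h2))
  · intro h1 X hX h2
    obtain ⟨ξ, hξ⟩ := h.dec X (hLM hX)
    exact (h.comp_zero hξ i).1 (h1 ξ ⟨X, hX, hξ⟩ ((h.comp_zero hξ k).2 h2))

/-- The components at `i` of the elements whose components on `s` are zero. -/
def NS (_ : Cl K M) (L : Submodule ℂ R) (s : Finset I) (i : I) : Submodule ℂ R where
  carrier := {x | ∃ ξ ∈ XK K L, ξ i = x ∧ ∀ k ∈ s, ξ k = 0}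
  zero_mem' := ⟨0, Submodule.zero_mem _, rfl, fun _ _ => rfl⟩
  add_mem' := by
    rintro _ _ ⟨ξ, h1, rfl, h2⟩ ⟨η, h3, rfl, h4⟩
    exact ⟨ξ + η, Submodule.add_mem _ h1 h3, rfl, fun k hk => by
      rw [Pi.add_apply, h2 k hk, h4 k hk, add_zero]⟩
  smul_mem' := by
    rintro c _ ⟨ξ, h1, rfl, h2⟩
    exact ⟨c • ξ, Submodule.smul_mem _ _ h1, rfl, fun k hk => by
      rw [Pi.smul_apply, h2 k hk, smul_zero]⟩

include hLbr hsur in
theorem NS_or (s : Finset I) (i : I) : h.NS L s i = ⊥ ∨ h.NS L s i = K i := by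
  refine h.simple i _ ?_ ?_
  · rintro _ ⟨ξ, ⟨X, _, hξ⟩, rfl, _⟩
    exact hξ.mem i
  · rintro a ha _ ⟨ξ, h1, rfl, h2⟩
    obtain ⟨η, hη, rfl⟩ := hsur i a ha
    exact ⟨_, h.XK_br hLbr η hη ξ h1, rfl, fun k hk => by
      rw [h2 k hk, mul_zero, zero_mul, sub_zero]⟩

include hLM hLbr hsur in
/-- The lemma of Goursat. -/
theorem goursat {i k : I} (hik : ¬ Lk K L i k) {x : R} (hx : x ∈ K i) :
    ∃ ξ ∈ XK K L, ξ i = x ∧ ξ k = 0 := by
  rw [h.lk_iff hLM] at hik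
  push Not at hik
  obtain ⟨ξ, hξ, h1, h2⟩ := hik
  rcases h.NS_or hLbr hsur {k} i with h3 | h3
  · exfalso
    have h4 : ξ i ∈ h.NS L {k} i := ⟨ξ, hξ, rfl, fun l hl => by
      rw [Finset.mem_singleton.1 hl, h1]⟩
    rw [h3, Submodule.mem_bot] at h4
    exact h2 h4
  · rw [← h3] at hx
    obtain ⟨η, h4, h5, h6⟩ := hx
    exact ⟨η, h4, h5, h6 k (Finset.mem_singleton_self k)⟩

include hLM hLbr hsur in
theorem lk_symm {i k : I} (hik : Lk K L i k) : Lk K L k i := by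
  by_contra hno
  obtain ⟨x, hx, y, hy, hne⟩ := h.nab i
  obtain ⟨ξ, hξ, h1⟩ := hsur i _ (h.br i x hx y hy)
  obtain ⟨X, hX, hd⟩ := id hξ
  obtain ⟨η, hη, h2, h3⟩ := h.goursat hLM hLbr hsur hno (hd.mem k)
  have h4 := (h.lk_iff hLM).1 hik (ξ - η) (Submodule.sub_mem _ hξ hη) (by
    rw [Pi.sub_apply, h2, sub_self])
  rw [Pi.sub_apply, h3, sub_zero, h1] at h4
  exact hne h4

include hLM hLbr hsur in
theorem lk_equiv : Equivalence (Lk K L) where
  refl i := fun X _ hX => hX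
  symm hik := h.lk_symm hLM hLbr hsur hik
  trans := fun h1 h2 X hX h3 => h1 X hX (h2 X hX h3)

include hLM hLbr hsur in
/-- Linked colours have the same dimension. -/
theorem lk_finrank [FiniteDimensional ℂ R] {i k : I} (hik : Lk K L i k) :
    finrank ℂ (K i) = finrank ℂ (K k) := by
  let p : I → (XK K L →ₗ[ℂ] R) := fun i => (LinearMap.proj i).comp (XK K L).subtype
  have hp : ∀ i (ξ : XK K L), p i ξ = (ξ : I → R) i := fun i ξ => rfl
  have hr : ∀ i, LinearMap.range (p i) = K i := by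
    intro i
    ext x
    constructor
    · rintro ⟨⟨ξ, X, _, hξ⟩, rfl⟩
      exact hξ.mem i
    · intro hx
      obtain ⟨ξ, hξ, h1⟩ := hsur i x hx
      exact ⟨⟨ξ, hξ⟩, h1⟩
  have hk : LinearMap.ker (p i) = LinearMap.ker (p k) := by
    ext ξ
    rw [LinearMap.mem_ker, LinearMap.mem_ker, hp, hp]
    exact ⟨(h.lk_iff hLM).1 (h.lk_symm hLM hLbr hsur hik) _ ξ.2, (h.lk_iff hLM).1 hik _ ξ.2⟩
  have h1 := (p i).finrank_range_add_finrank_ker
  have h2 := (p k).finrank_range_add_finrank_ker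
  rw [hr] at h1 h2
  rw [hk] at h1
  omega

include hLM hLbr hsur in
/-- The lemma of Ribet. -/
theorem ribet (hno : ∀ i k, Lk K L i k → i = k) (s : Finset I) :
    ∀ i, i ∉ s → h.NS L s i = K i := by
  induction s using Finset.induction_on with
  | empty =>
    intro i _
    refine le_antisymm ?_ fun x hx => ?_
    · rintro _ ⟨ξ, ⟨X, _, hξ⟩, rfl, _⟩
      exact hξ.mem i
    · obtain ⟨ξ, hξ, h1⟩ := hsur i x hx
      exact ⟨ξ, hξ, h1, fun k hk => absurd hk (Finset.notMem_empty k)⟩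
  | insert k s hk ih =>
    intro i hi
    rw [Finset.mem_insert, not_or] at hi
    rcases h.NS_or hLbr hsur (insert k s) i with h1 | h1
    swap
    · exact h1
    exfalso
    obtain ⟨x, hx, y, hy, hne⟩ := h.nab i
    rw [← ih i hi.2] at hx
    obtain ⟨ξ, hξ, rfl, h2⟩ := hx
    obtain ⟨η, hη, rfl, h3⟩ := h.goursat hLM hLbr hsur (fun h4 => hi.1 (hno i k h4)) hy
    have h4 : ξ i * η i - η i * ξ i ∈ h.NS L (insert k s) i :=
      ⟨_, h.XK_br hLbr ξ hξ η hη, rfl, fun l hl => by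
        rcases Finset.mem_insert.1 hl with rfl | hl
        · rw [h3, mul_zero, zero_mul, sub_zero]
        · rw [h2 l hl, mul_zero, zero_mul, sub_zero]⟩
    rw [h1, Submodule.mem_bot] at h4
    exact hne h4

include hLM hLbr hsur in
/-- If there are no links, every tuple is the tuple of the components of an element of `L`. -/
theorem all_comp (hno : ∀ i k, Lk K L i k → i = k) {ξ : I → R} (hξ : ∀ i, ξ i ∈ K i) :
    ξ ∈ XK K L := by
  have h1 : ∀ i, Pi.single i (ξ i) ∈ XK K L := by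
    intro i
    have h2 := hξ i
    rw [← h.ribet hLM hLbr hsur hno (Finset.univ.erase i) i (Finset.notMem_erase i _)] at h2
    obtain ⟨η, hη, h2, h3⟩ := h2
    have h4 : Pi.single i (ξ i) = η := by
      funext k
      by_cases hk : k = i
      · subst hk
        rw [Pi.single_eq_same, h2]
      · rw [Pi.single_eq_of_ne hk, h3 k (Finset.mem_erase.2 ⟨hk, Finset.mem_univ k⟩)]
    rw [h4]
    exact hη
  have h2 : ξ = ∑ i, Pi.single i (ξ i) := (Finset.univ_sum_single ξ).symm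
  rw [h2]
  exact Submodule.sum_mem _ fun i _ => h1 i

include hLM hLbr hsur in
/-- If there are no links, the brackets of elements of `M` are brackets of elements of `L`, up to
elements which commute with the colours. -/
theorem br_mod (hno : ∀ i k, Lk K L i k → i = k) {X Y : R} (hX : X ∈ M) (hY : Y ∈ M) :
    ∃ X' ∈ L, ∃ Y' ∈ L, CmA K ((X * Y - Y * X) - (X' * Y' - Y' * X')) := by
  obtain ⟨ξ, hξ⟩ := h.dec X hX
  obtain ⟨η, hη⟩ := h.dec Y hY
  obtain ⟨X', hX', h1⟩ := h.all_comp hLM hLbr hsur hno hξ.mem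
  obtain ⟨Y', hY', h2⟩ := h.all_comp hLM hLbr hsur hno hη.mem
  refine ⟨X', hX', Y', hY', fun i => ?_⟩
  have h3 := ((h.dec_br hξ hη).rest i).sub ((h.dec_br h1 h2).rest i)
  have h4 : X * Y - Y * X - ∑ i, (ξ i * η i - η i * ξ i) -
      (X' * Y' - Y' * X' - ∑ i, (ξ i * η i - η i * ξ i)) =
      (X * Y - Y * X) - (X' * Y' - Y' * X') := by abel
  rwa [h4] at h3

end Sub

/-! ### Colours of dimension three -/

omit h in
/-- A perfect Lie algebra of dimension at most two is zero. -/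
theorem perf3 {P : Submodule ℂ R} [FiniteDimensional ℂ P]
    (hP : P ≤ Submodule.span ℂ {z | ∃ x ∈ P, ∃ y ∈ P, z = x * y - y * x})
    (h3 : finrank ℂ P < 3) : P = ⊥ := by
  -- a spanning pair
  obtain ⟨x, y, hxy⟩ : ∃ x y : R, P ≤ Submodule.span ℂ {x, y} := by
    have b := Module.finBasis ℂ P
    have hs : ∀ n : ℕ, n < 3 → ∀ b : Basis (Fin n) ℂ P, ∃ x y : R, P ≤ Submodule.span ℂ {x, y} := by
      intro n hn b
      have key : ∀ (z : R) (hz : z ∈ P), z = ∑ j, b.repr ⟨z, hz⟩ j • (b j : R) := by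
        intro z hz
        have h1 := congrArg (Subtype.val) (b.sum_repr ⟨z, hz⟩)
        rw [Submodule.coe_sum] at h1
        exact h1.symm
      interval_cases n
      · refine ⟨0, 0, fun z hz => ?_⟩
        rw [key z hz, Finset.univ_eq_empty, Finset.sum_empty]
        exact Submodule.zero_mem _
      · refine ⟨b 0, 0, fun z hz => ?_⟩
        rw [key z hz, Fin.sum_univ_one]
        exact Submodule.smul_mem _ _ (Submodule.subset_span (Set.mem_insert _ _))
      · refine ⟨b 0, b 1, fun z hz => ?_⟩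
        rw [key z hz, Fin.sum_univ_two]
        exact Submodule.add_mem _ (Submodule.smul_mem _ _ (Submodule.subset_span
          (Set.mem_insert _ _))) (Submodule.smul_mem _ _ (Submodule.subset_span
          (Set.mem_insert_of_mem _ rfl)))
    exact hs _ h3 b
  have hc : P ≤ Submodule.span ℂ {x * y - y * x} := by
    refine hP.trans (Submodule.span_le.2 ?_)
    rintro _ ⟨u, hu, v, hv, rfl⟩
    obtain ⟨a, b, rfl⟩ := Submodule.mem_span_pair.1 (hxy hu)
    obtain ⟨c, d, rfl⟩ := Submodule.mem_span_pair.1 (hxy hv)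
    refine Submodule.mem_span_singleton.2 ⟨a * d - b * c, ?_⟩
    simp only [add_mul, mul_add, smul_mul_assoc, mul_smul_comm]
    module
  rw [eq_bot_iff]
  refine hP.trans (Submodule.span_le.2 ?_)
  rintro _ ⟨u, hu, v, hv, rfl⟩
  obtain ⟨a, rfl⟩ := Submodule.mem_span_singleton.1 (hc hu)
  obtain ⟨c, rfl⟩ := Submodule.mem_span_singleton.1 (hc hv)
  rw [SetLike.mem_coe, Submodule.mem_bot]
  simp only [smul_mul_assoc, mul_smul_comm]
  module

section Sur

variable {L D : Submodule ℂ R} (hLM : L ≤ M) (hDL : D ≤ L)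
  (hLbr : ∀ X ∈ L, ∀ Y ∈ L, X * Y - Y * X ∈ L)
  (hperf : D ≤ Submodule.span ℂ {Z | ∃ X ∈ D, ∃ Y ∈ D, Z = X * Y - Y * X})
  (hdec : ∀ X ∈ L, ∃ Z ∈ L, ∃ d ∈ D, X = Z + d ∧ ∀ Y ∈ L, Z * Y = Y * Z)
  (hcom : ∀ T : R, (∀ X ∈ L, T * X = X * T) → ∀ X ∈ M, T * X = X * T)

include hLM hDL hperf in
theorem perfect_proj (i : I) : (XK K D).map (LinearMap.proj i) ≤ Submodule.span ℂ
    {z | ∃ x ∈ (XK K D).map (LinearMap.proj i), ∃ y ∈ (XK K D).map (LinearMap.proj i),
      z = x * y - y * x} := by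
  have hDM : D ≤ M := hDL.trans hLM
  have hP : ∀ y, y ∈ (XK K D).map (LinearMap.proj i) ↔ ∃ ξ ∈ XK K D, ξ i = y := by
    intro y
    simp only [Submodule.mem_map, LinearMap.proj_apply]
  have key : ∀ Z ∈ Submodule.span ℂ {Z | ∃ X ∈ D, ∃ Y ∈ D, Z = X * Y - Y * X},
      ∃ ξ, Dec K Z ξ ∧ ξ i ∈ Submodule.span ℂ
        {z | ∃ x ∈ (XK K D).map (LinearMap.proj i), ∃ y ∈ (XK K D).map (LinearMap.proj i),
          z = x * y - y * x} := by
    intro Z hZ
    induction hZ using Submodule.span_induction with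
    | mem Z hZ =>
      obtain ⟨X, hX, Y, hY, rfl⟩ := hZ
      obtain ⟨ξ, hξ⟩ := h.dec X (hDM hX)
      obtain ⟨η, hη⟩ := h.dec Y (hDM hY)
      exact ⟨_, h.dec_br hξ hη, Submodule.subset_span ⟨ξ i, (hP _).2 ⟨ξ, ⟨X, hX, hξ⟩, rfl⟩, η i,
          (hP _).2 ⟨η, ⟨Y, hY, hη⟩, rfl⟩, rfl⟩⟩
    | zero => exact ⟨0, Dec.zero, Submodule.zero_mem _⟩
    | add a b _ _ ha hb =>
      obtain ⟨ξ, hξ, h1⟩ := ha
      obtain ⟨η, hη, h2⟩ := hb
      exact ⟨ξ + η, hξ.add hη, Submodule.add_mem _ h1 h2⟩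
    | smul c a _ ha =>
      obtain ⟨ξ, hξ, h1⟩ := ha
      exact ⟨c • ξ, hξ.smul c, Submodule.smul_mem _ _ h1⟩
  intro x hx
  obtain ⟨ξ, ⟨X, h1, h2⟩, h3⟩ := (hP x).1 hx
  obtain ⟨η, hη, h4⟩ := key X (hperf h1)
  rw [← h3, h.uniq h2 hη]
  exact h4

include hLM hDL hLbr hperf hdec hcom in
/-- The projections to colours of dimension three are surjective. -/
theorem sur3 [FiniteDimensional ℂ R] {i : I} (hi : finrank ℂ (K i) = 3) {x : R} (hx : x ∈ K i) :
    ∃ ξ ∈ XK K L, ξ i = x := by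
  have hP : ∀ y, y ∈ (XK K D).map (LinearMap.proj i) ↔ ∃ ξ ∈ XK K D, ξ i = y := by
    intro y
    simp only [Submodule.mem_map, LinearMap.proj_apply]
  have hle : (XK K D).map (LinearMap.proj i) ≤ K i := by
    intro y hy
    obtain ⟨ξ, ⟨X, _, h2⟩, rfl⟩ := (hP y).1 hy
    exact h2.mem i
  by_cases h3 : finrank ℂ ((XK K D).map (LinearMap.proj i) : Submodule ℂ R) < 3
  swap
  · have h4 : (XK K D).map (LinearMap.proj i) = K i :=
      Submodule.eq_of_le_of_finrank_le hle (by rw [hi]; omega)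
    rw [← h4] at hx
    obtain ⟨ξ, ⟨X, h5, h6⟩, h7⟩ := (hP x).1 hx
    exact ⟨ξ, ⟨X, hDL h5, h6⟩, h7⟩
  exfalso
  have h4 := perf3 (h.perfect_proj hLM hDL hperf i) h3
  have h1 : ∀ ξ ∈ XK K D, ξ i = 0 := by
    intro ξ hξ
    have h5 := (hP _).2 ⟨ξ, hξ, rfl⟩
    rwa [h4, Submodule.mem_bot] at h5
  have hab : ∀ ξ ∈ XK K L, ∀ η ∈ XK K L, ξ i * η i - η i * ξ i = 0 := by
    rintro ξ ⟨X, hX, hξ⟩ η ⟨Y, hY, hη⟩
    obtain ⟨Z, hZ, d, hd, hXZ, hZc⟩ := hdec X hX
    obtain ⟨ζ, hζ⟩ := h.dec Z (hLM hZ)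
    obtain ⟨δ, hδ⟩ := h.dec d (hLM (hDL hd))
    have h2 : ξ = ζ + δ := h.uniq hξ (hXZ ▸ hζ.add hδ)
    have h3 : ξ i = ζ i := by
      rw [h2, Pi.add_apply, h1 δ ⟨d, hd, hδ⟩, add_zero]
    have h4 := h.dec_br hζ hη
    rw [hZc Y hY, sub_self] at h4
    have h5 := congrFun (h.uniq h4 Dec.zero) i
    rw [h3]
    exact h5
  obtain ⟨a, ha, ha0, hac⟩ : ∃ a ∈ K i, a ≠ 0 ∧ ∀ ξ ∈ XK K L, a * ξ i = ξ i * a := by
    by_cases hall : ∀ ξ ∈ XK K L, ξ i = 0
    · obtain ⟨x, hx, y, hy, hne⟩ := h.nab i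
      exact ⟨_, h.br i x hx y hy, hne, fun ξ hξ => by rw [hall ξ hξ, mul_zero, zero_mul]⟩
    · push Not at hall
      obtain ⟨ξ, hξ, hne⟩ := hall
      refine ⟨ξ i, ?_, hne, fun η hη => sub_eq_zero.1 (hab ξ hξ η hη)⟩
      obtain ⟨X, _, h2⟩ := hξ
      exact h2.mem i
  apply ha0
  refine h.centre ha fun b hb => ?_
  refine hcom a (fun X hX => ?_) b (h.le i hb)
  obtain ⟨ξ, hξ⟩ := h.dec X (hLM hX)
  have h2 := h.br_col hξ ha
  rw [hac ξ ⟨X, hX, hξ⟩, sub_self] at h2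
  exact (sub_eq_zero.1 h2).symm

end Sur

end Cl

end Pool.Agent.D0H89.GC
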