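import Mathlib.Data.Fintype.Card
import Mathlib.SetTheory.Cardinal.Finite
import Mathlib.Data.Nat.GCD.Basic
import Mathlib.Algebra.BigOperators.Group.Finset.Basic
import Mathlib.Algebra.Order.BigOperators.Group.Finset
import Mathlib.Tactic

set_option autoImplicit false
set_option linter.unusedSectionVars false
set_option linter.unusedSimpArgs false
set_option linter.unusedVariables false

/-!
# Stable equivalence relations on orbits: a numerical criterion
-/

noncomputable section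

namespace Pool.Agent.D0H89.GC

variable {I T : Type} [Fintype I]

/-- Classes of the same size. -/
theorem dvd_card' {r : I → I → Prop} (hr : Equivalence r) {b : ℕ} (s : Finset I)
    (hs : ∀ i ∈ s, ∀ k, r i k → k ∈ s)
    (hb : ∀ i ∈ s, Nat.card {k // r i k} = b) : b ∣ s.card := by
  classical
  let st : Setoid I := ⟨r, hr⟩
  rw [Finset.card_eq_sum_card_image (fun i => Quotient.mk st i) s]
  refine Finset.dvd_sum fun q hq => ?_
  obtain ⟨i, hi, rfl⟩ := Finset.mem_image.1 hq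
  have h1 : {a ∈ s | Quotient.mk st a = Quotient.mk st i} = Finset.univ.filter fun k => r i k := by
    ext a
    rw [Finset.mem_filter, Finset.mem_filter]
    constructor
    · rintro ⟨-, h2⟩
      exact ⟨Finset.mem_univ _, hr.symm (Quotient.exact (s := st) h2)⟩
    · rintro ⟨-, h2⟩
      exact ⟨hs i hi a h2, Quotient.sound (s := st) (hr.symm h2)⟩
  rw [h1]
  have h2 := hb i hi
  rw [Nat.card_eq_fintype_card, Fintype.card_subtype] at h2
  exact dvd_of_eq h2.symm

variable {m : T → I → I → Prop} (tot : ∀ τ i, ∃ k, m τ i k)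
  (inj : ∀ τ i l k, m τ i k → m τ l k → i = l)
  (hC : Equivalence (fun i k => ∃ τ, m τ i k))
  {r : I → I → Prop} (hr : Equivalence r)
  (hg : ∀ τ i k i' k', m τ i i' → m τ k k' → r i k → r i' k')
  {nc : I → Prop} (hnc : ∀ i k, r i k → nc i → nc k)
  (hco : ∀ i, Nat.Coprime (Nat.card {k // ∃ τ, m τ i k})
    (Nat.card {k // (∃ τ, m τ i k) ∧ nc k}))

include tot inj hC hr hg hnc hco in
/-- Conjugate elements are not linked. -/
theorem num1 {i k : I} (h1 : r i k) (h2 : ∃ τ, m τ i k) : i = k := by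
  classical
  choose f hf using tot
  have hr' : Equivalence (fun i k => r i k ∧ ∃ τ, m τ i k) :=
    ⟨fun i => ⟨hr.refl i, hC.refl i⟩, fun h => ⟨hr.symm h.1, hC.symm h.2⟩,
      fun h h' => ⟨hr.trans h.1 h'.1, hC.trans h.2 h'.2⟩⟩
  have hle : ∀ i i', (∃ τ, m τ i i') → Nat.card {k // r i k ∧ ∃ τ, m τ i k} ≤
      Nat.card {k // r i' k ∧ ∃ τ, m τ i' k} := by
    intro i i' hii
    obtain ⟨τ, hτ⟩ := id hii
    refine Nat.card_le_card_of_injective
      (fun x : {k // r i k ∧ ∃ τ, m τ i k} =>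
        (⟨f τ x.1, hg τ i x.1 i' (f τ x.1) hτ (hf τ x.1) x.2.1,
          hC.trans (hC.trans (hC.symm hii) x.2.2) ⟨τ, hf τ x.1⟩⟩ :
        {k // r i' k ∧ ∃ τ, m τ i' k})) ?_
    intro a b hab
    have h3 : f τ a.1 = f τ b.1 := congrArg Subtype.val hab
    refine Subtype.ext (inj τ a.1 b.1 (f τ b.1) ?_ (hf τ b.1))
    rw [← h3]
    exact hf τ a.1
  have hb : ∀ i', (∃ τ, m τ i i') → Nat.card {k // r i' k ∧ ∃ τ, m τ i' k} =
      Nat.card {k // r i k ∧ ∃ τ, m τ i k} := fun i' hi' =>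
    le_antisymm (hle i' i (hC.symm hi')) (hle i i' hi')
  have h3 : Nat.card {k // r i k ∧ ∃ τ, m τ i k} ∣ Nat.card {k // ∃ τ, m τ i k} := by
    rw [Nat.card_eq_fintype_card (α := {k // ∃ τ, m τ i k}), Fintype.card_subtype]
    refine dvd_card' hr' _ (fun a ha b hab => ?_) fun a ha => ?_
    · rw [Finset.mem_filter] at ha ⊢
      exact ⟨Finset.mem_univ _, hC.trans ha.2 hab.2⟩
    · rw [Finset.mem_filter] at ha
      exact hb a ha.2
  have h4 : Nat.card {k // r i k ∧ ∃ τ, m τ i k} ∣ Nat.card {k // (∃ τ, m τ i k) ∧ nc k} := by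
    rw [Nat.card_eq_fintype_card (α := {k // (∃ τ, m τ i k) ∧ nc k}), Fintype.card_subtype]
    refine dvd_card' hr' _ (fun a ha b hab => ?_) fun a ha => ?_
    · rw [Finset.mem_filter] at ha ⊢
      exact ⟨Finset.mem_univ _, hC.trans ha.2.1 hab.2, hnc a b hab.1 ha.2.2⟩
    · rw [Finset.mem_filter] at ha
      exact hb a ha.2.1
  have h5 : Nat.card {k // r i k ∧ ∃ τ, m τ i k} = 1 := by
    have h6 := Nat.dvd_gcd h3 h4
    rw [hco i] at h6
    exact Nat.dvd_one.1 h6
  rw [Nat.card_eq_one_iff_unique] at h5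
  have h6 := h5.1.elim ⟨i, hr.refl i, hC.refl i⟩ ⟨k, h1, h2⟩
  exact congrArg Subtype.val h6

include tot inj hC hr hg hnc hco in
/-- The numerical criterion. -/
theorem num {d : I → ℕ} (hd : ∀ i k, r i k → d i = d k)
    (hdi : ∀ i k, d i = d k →
      Nat.card {l // ∃ τ, m τ i l} = Nat.card {l // ∃ τ, m τ k l} →
      Nat.card {l // (∃ τ, m τ i l) ∧ nc l} = Nat.card {l // (∃ τ, m τ k l) ∧ nc l} →
      ∃ τ, m τ i k) {i k : I} (h1 : r i k) : i = k := by
  classical
  refine num1 tot inj hC hr hg hnc hco h1 ?_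
  choose f hf using tot
  have key : ∀ i k l l', r i k → ∀ (hl : ∃ τ, m τ i l) (hl' : ∃ τ, m τ i l'),
      f hl.choose k = f hl'.choose k → l = l' := by
    intro i k l l' hik hl hl' h2
    refine num1 (fun τ i => ⟨_, hf τ i⟩) inj hC hr hg hnc hco ?_ (hC.trans (hC.symm hl) hl')
    have h3 := hg _ i k l _ hl.choose_spec (hf _ k) hik
    have h4 := hg _ i k l' _ hl'.choose_spec (hf _ k) hik
    rw [h2] at h3
    exact hr.trans h3 (hr.symm h4)
  have hle1 : ∀ i k, r i k → Nat.card {l // ∃ τ, m τ i l} ≤ Nat.card {l // ∃ τ, m τ k l} := by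
    intro i k hik
    refine Nat.card_le_card_of_injective (fun x : {l // ∃ τ, m τ i l} =>
      (⟨f x.2.choose k, x.2.choose, hf _ k⟩ : {l // ∃ τ, m τ k l})) ?_
    intro a b hab
    exact Subtype.ext (key i k a.1 b.1 hik a.2 b.2 (congrArg Subtype.val hab))
  have hle2 : ∀ i k, r i k → Nat.card {l // (∃ τ, m τ i l) ∧ nc l} ≤
      Nat.card {l // (∃ τ, m τ k l) ∧ nc l} := by
    intro i k hik
    refine Nat.card_le_card_of_injective (fun x : {l // (∃ τ, m τ i l) ∧ nc l} =>
      (⟨f x.2.1.choose k, ⟨x.2.1.choose, hf _ k⟩, hnc _ _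
        (hg _ i k x.1 _ x.2.1.choose_spec (hf _ k) hik) x.2.2⟩ :
        {l // (∃ τ, m τ k l) ∧ nc l})) ?_
    intro a b hab
    exact Subtype.ext (key i k a.1 b.1 hik a.2.1 b.2.1 (congrArg Subtype.val hab))
  exact hdi i k (hd i k h1) (le_antisymm (hle1 i k h1) (hle1 k i (hr.symm h1)))
    (le_antisymm (hle2 i k h1) (hle2 k i (hr.symm h1)))

end Pool.Agent.D0H89.GC
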