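import Pool.Agent.D0H89.GC.Real
import Pool.Agent.D0H89.GC.Num
import Pool.Agent.D0H89.TL.AVC
import Pool.Agent.D0H89.TL.Mot

set_option autoImplicit false
set_option linter.unusedSectionVars false
set_option linter.unusedSimpArgs false
set_option linter.unusedVariables false

/-!
# Simple ideals of the complex Lie algebra of an abelian variety
-/

open Module Function TensorProduct Matrix

noncomputable section

namespace Pool.Agent.D0H89.GC

open Pool.Agent.Y102 Pool.Agent.W516.DR Pool.Agent.H204R3.GP Pool.Agent.W516.KC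
  Pool.Agent.H204R3.SP Pool.Agent.TH119.MX Pool.Agent.R917 Pool.Agent.N208.AM Pool.Agent.N113.BT
  Pool.Agent.D0H89.TL

variable {g : ℕ} {A : AbVar g} {I : Type} [Fintype I] [DecidableEq I]
  {K : I → Submodule ℂ (Matrix (Fin (2 * g)) (Fin (2 * g)) ℂ)}

/-- The positive real structure. -/
theorem rl_av : Rl (lC A.NA) (RingEquiv.mapMatrix (starRingAut : ℂ ≃+* ℂ))
    (Matrix.traceLinearMap (Fin (2 * g)) ℂ ℂ) (mR A AbVar.JJ) where
  cc X := by
    ext a b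
    exact Complex.conj_conj _
  cs a X := by
    ext a' b
    change (starRingEnd ℂ) (a * X a' b) = (starRingEnd ℂ) a * (starRingEnd ℂ) (X a' b)
    rw [map_mul]
  tm X Y := Matrix.trace_mul_comm X Y
  tc X := by
    rw [Matrix.traceLinearMap_apply, Matrix.traceLinearMap_apply, Matrix.trace, Matrix.trace,
      map_sum]
    rfl
  JM := JJ_mem
  JJ := mR_JJ
  cJ := mR_conj _
  cM X hX := map_mem_lC (starRingAut : ℂ ≃+* ℂ) hX
  pos Y hY hc h0 := pos_lC hY hc h0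

/-- The automorphisms of the complex numbers permute the colours. -/
def Gs (K : I → Submodule ℂ (Matrix (Fin (2 * g)) (Fin (2 * g)) ℂ)) : Prop :=
  ∀ (τ : ℂ ≃+* ℂ) i, ∃ k, ∀ x ∈ K i, x.map τ ∈ K k

theorem map_map_symm (τ : ℂ ≃+* ℂ) (x : Matrix (Fin (2 * g)) (Fin (2 * g)) ℂ) :
    (x.map τ).map τ.symm = x := by
  ext a b
  rw [Matrix.map_apply, Matrix.map_apply, τ.symm_apply_apply]

theorem map_symm_map (τ : ℂ ≃+* ℂ) (x : Matrix (Fin (2 * g)) (Fin (2 * g)) ℂ) :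
    (x.map τ.symm).map τ = x := by
  ext a b
  rw [Matrix.map_apply, Matrix.map_apply, τ.apply_symm_apply]

section Cs

variable (h : Cs K (lC A.NA)) (hg : Gs K)
include h hg

theorem cl_av : Cl K (lC A.NA) :=
  h.cl rl_av fun i => hg (starRingAut : ℂ ≃+* ℂ) i

theorem conj_av (i : I) {x : Matrix (Fin (2 * g)) (Fin (2 * g)) ℂ} (hx : x ∈ K i) :
    x.map (starRingAut : ℂ ≃+* ℂ) ∈ K i :=
  h.conj_mem rl_av (fun i => hg (starRingAut : ℂ ≃+* ℂ) i) i hx

/-- The image is the whole colour. -/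
theorem map_back {τ : ℂ ≃+* ℂ} {i k : I} (h1 : ∀ x ∈ K i, x.map τ ∈ K k) :
    ∀ y ∈ K k, y.map τ.symm ∈ K i := by
  obtain ⟨l, hl⟩ := hg τ.symm k
  have h2 : K i ≤ K l := by
    intro x hx
    have h3 := hl _ (h1 x hx)
    rwa [map_map_symm] at h3
  rw [h.le_eq h2]
  exact hl

theorem map_inj {τ : ℂ ≃+* ℂ} {i l k : I} (h1 : ∀ x ∈ K i, x.map τ ∈ K k)
    (h2 : ∀ x ∈ K l, x.map τ ∈ K k) : i = l := by
  apply h.le_eq
  intro x hx
  have h3 := map_back h hg h2 _ (h1 x hx)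
  rwa [map_map_symm] at h3

theorem conj_equiv : Equivalence (fun i k => ∃ τ : ℂ ≃+* ℂ, ∀ x ∈ K i, x.map τ ∈ K k) where
  refl i := ⟨RingEquiv.refl ℂ, fun x hx => by
    have h1 : x.map (RingEquiv.refl ℂ) = x := by
      ext a b
      rfl
    rw [h1]
    exact hx⟩
  symm := by
    rintro i k ⟨τ, hτ⟩
    exact ⟨τ.symm, map_back h hg hτ⟩
  trans := by
    rintro i k l ⟨τ, hτ⟩ ⟨σ, hσ⟩
    refine ⟨τ.trans σ, fun x hx => ?_⟩
    have h1 : x.map (τ.trans σ) = (x.map τ).map σ := by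
      ext a b
      rfl
    rw [h1]
    exact hσ _ (hτ x hx)

/-- The link relation is stable under the automorphisms. -/
theorem lk_gal {L : Submodule ℂ (Matrix (Fin (2 * g)) (Fin (2 * g)) ℂ)}
    (hL : ∀ (τ : ℂ ≃+* ℂ), ∀ X ∈ L, X.map τ ∈ L) (τ : ℂ ≃+* ℂ) {i k i' k' : I}
    (hi : ∀ x ∈ K i, x.map τ ∈ K i') (hk : ∀ x ∈ K k, x.map τ ∈ K k') (hik : Lk K L i k) :
    Lk K L i' k' := by
  intro X hX h1
  have hm : ∀ (σ : ℂ ≃+* ℂ) (x y : Matrix (Fin (2 * g)) (Fin (2 * g)) ℂ),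
      (x * y).map σ = x.map σ * y.map σ := fun σ x y => Matrix.map_mul
  have h2 := hik (X.map τ.symm) (hL τ.symm X hX) (fun a ha => by
    have h3 := congrArg (fun x => Matrix.map x τ.symm) (h1 _ (hk a ha))
    simp only [hm, map_map_symm] at h3
    exact h3)
  intro b hb
  have h3 := h2 _ (map_back h hg hi b hb)
  have h4 := congrArg (fun x => Matrix.map x τ) h3
  simp only [hm, map_symm_map] at h4
  exact h4

end Cs

/-- A rigid Lie algebra. -/
def Rg (A : AbVar g) (L : Submodule ℂ (Matrix (Fin (2 * g)) (Fin (2 * g)) ℂ)) : Prop :=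
  finrank ℂ L = 3 ∨ ∃ e S, RigPart A e S ∧ ∃ x ∈ L, e * matE (2 * g) x ≠ 0

theorem sur_iff (h : Cl K (lC A.NA)) {L : Submodule ℂ (Matrix (Fin (2 * g)) (Fin (2 * g)) ℂ)}
    (hL : L ≤ lC A.NA) {i : I} {x : Matrix (Fin (2 * g)) (Fin (2 * g)) ℂ} (hx : x ∈ K i) :
    (∃ ξ ∈ XK K L, ξ i = x) ↔ ∃ X ∈ L, Cm (K i) (X - x) := by
  constructor
  · rintro ⟨ξ, ⟨X, hX, hξ⟩, h1⟩
    exact ⟨X, hX, (h.comp_col hξ hx).1 h1⟩
  · rintro ⟨X, hX, h1⟩
    obtain ⟨ξ, hξ⟩ := h.dec X (hL hX)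
    exact ⟨ξ, ⟨X, hX, hξ⟩, (h.comp_col hξ hx).2 h1⟩

/-- The projection of a full subalgebra to a rigid colour is surjective. -/
theorem sur_rg (h : Cs K (lC A.NA)) (hg : Gs K) {i : I} (hR : Rg A (K i))
    {𝔮 : Submodule ℚ (Module.End ℚ A.H1)} (hq : A.Full 𝔮)
    {x : Matrix (Fin (2 * g)) (Fin (2 * g)) ℂ} (hx : x ∈ K i) :
    ∃ ξ ∈ XK K (lC 𝔮), ξ i = x := by
  have hcl := cl_av h hg
  rcases hR with h3 | ⟨e, S, hr, x0, hx0, hne⟩
  · exact hcl.sur3 (lC_mono hq.le) (f_der hq) (f_br hq) (f_perf hq) (f_dec hq) (f_com hq) h3 hx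
  -- the kernel of the action on the rigid part
  let Nn : Submodule ℂ (Matrix (Fin (2 * g)) (Fin (2 * g)) ℂ) :=
    { carrier := {y | y ∈ K i ∧ e * matE (2 * g) y = 0}
      zero_mem' := ⟨(K i).zero_mem, by rw [map_zero, mul_zero]⟩
      add_mem' := fun ⟨h1, h2⟩ ⟨h3, h4⟩ => ⟨(K i).add_mem h1 h3, by
        rw [map_add, mul_add, h2, h4, add_zero]⟩
      smul_mem' := fun c _ ⟨h1, h2⟩ => ⟨(K i).smul_mem c h1, by
        rw [map_smul, mul_smul_comm, h2, smul_zero]⟩ }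
  have hNn : ∀ y, y ∈ Nn ↔ y ∈ K i ∧ e * matE (2 * g) y = 0 := fun y => Iff.rfl
  have hec : ∀ a ∈ K i, e * matE (2 * g) a = matE (2 * g) a * e := fun a ha =>
    hr.comm _ (mem_lC.1 (h.le i ha))
  have hN : Nn = ⊥ := by
    rcases h.simple i Nn (fun y hy => ((hNn y).1 hy).1) (fun a ha b hb => by
      obtain ⟨h1, h2⟩ := (hNn b).1 hb
      refine (hNn _).2 ⟨h.cb.br i a ha b h1, ?_⟩
      rw [map_sub, map_mul, map_mul, mul_sub, ← mul_assoc, ← mul_assoc, hec a ha, mul_assoc, h2,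
        mul_zero, zero_mul, sub_zero]) with h1 | h1
    · exact h1
    · exfalso
      have h2 : x0 ∈ Nn := by rw [h1]; exact hx0
      exact hne ((hNn _).1 h2).2
  have hxM := mem_lC.1 (h.le i hx)
  obtain ⟨c, hc⟩ := hr.le _ hxM
  obtain ⟨y, hy, c', h1⟩ := hr.surj hq _ hc
  rw [sur_iff hcl (lC_mono hq.le) hx]
  refine ⟨(matE (2 * g)).symm y, ?_, fun a ha => ?_⟩
  · rw [mem_lC, AlgEquiv.apply_symm_apply]
    exact hy
  have hyM : (matE (2 * g)).symm y ∈ lC (A := A) A.NA := by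
    rw [mem_lC, AlgEquiv.apply_symm_apply]
    exact cx_mono hq.le hy
  have h2 : ((matE (2 * g)).symm y - x) * a - a * ((matE (2 * g)).symm y - x) ∈ Nn := by
    refine (hNn _).2 ⟨h.ideal i _ ((lC A.NA).sub_mem hyM (h.le i hx)) a ha, ?_⟩
    rw [map_sub, map_mul, map_mul, map_sub, AlgEquiv.apply_symm_apply, mul_sub, ← mul_assoc,
      ← mul_assoc, hec a ha, mul_assoc (matE (2 * g) a), mul_sub]
    have h3 : e * y - e * matE (2 * g) x = (c - c') • e := by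
      have h4 : e * y = e * matE (2 * g) x + c • e - c' • e := by
        rw [h1]
        abel
      rw [h4]
      module
    rw [h3, smul_mul_assoc, mul_smul_comm, hec a ha, sub_self]
  rw [hN, Submodule.mem_bot] at h2
  exact sub_eq_zero.1 h2

/-- The elements which commute with the colours. -/
def KC (K : I → Submodule ℂ (Matrix (Fin (2 * g)) (Fin (2 * g)) ℂ)) :
    Submodule ℂ (Module.End ℂ (ℂ ⊗[ℚ] A.H1)) where
  carrier := {z | CmA K ((matE (2 * g)).symm z)}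
  zero_mem' := by
    change CmA K ((matE (2 * g)).symm 0)
    rw [map_zero]
    exact fun i => Cm.zero
  add_mem' := by
    intro a b ha hb
    change CmA K ((matE (2 * g)).symm (a + b))
    rw [map_add]
    exact fun i => (ha i).add (hb i)
  smul_mem' := by
    intro c a ha
    change CmA K ((matE (2 * g)).symm (c • a))
    rw [map_smul]
    exact fun i => (ha i).smul c

theorem mem_KC {z : Module.End ℂ (ℂ ⊗[ℚ] A.H1)} :
    z ∈ KC (A := A) K ↔ CmA K ((matE (2 * g)).symm z) := Iff.rfl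

theorem KC_br (h : Cl K (lC A.NA)) {z : Module.End ℂ (ℂ ⊗[ℚ] A.H1)} (hz : z ∈ KC (A := A) K)
    {X : Module.End ℚ A.H1} (hX : X ∈ A.NA) :
    z * X.baseChange ℂ - X.baseChange ℂ * z ∈ KC (A := A) K := by
  rw [mem_KC] at hz ⊢
  have h1 : (matE (2 * g)).symm (X.baseChange ℂ) = toC X := by
    rw [← matE_toC, AlgEquiv.symm_apply_apply]
  rw [map_sub, map_mul, map_mul, h1]
  obtain ⟨ξ, hξ⟩ := h.dec _ (toC_mem hX)
  have h2 : (matE (2 * g)).symm z * toC X - toC X * (matE (2 * g)).symm z =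
      (matE (2 * g)).symm z * (toC X - ∑ i, ξ i) -
        (toC X - ∑ i, ξ i) * (matE (2 * g)).symm z := by
    rw [mul_sub, sub_mul, hz.sum hξ.mem]
    abel
  rw [h2]
  exact fun i => ((hz i).mul (hξ.rest i)).sub ((hξ.rest i).mul (hz i))

section motive

variable {s n : ℕ} {r : Fin s → ℕ} {B : Fin n → Ten A r} {w : Fin s → ℤ}
  {P : Matrix (Fin n) (Fin n) ℂ} {Wt : Matrix (Fin n) (Fin n) ℚ}
  {H : Set (Matrix (Fin n) (Fin n) ℂ)} {N : Matrix (Fin n) (Fin n) ℝ}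

/-- The condition on the pairs, in terms of matrices. -/
theorem alpha_ofK {T : Submodule ℚ (Module.End ℚ A.H1)}
    (hα : ∀ p ∈ Submodule.span ℂ {p : Matrix (Fin (2 * g)) (Fin (2 * g)) ℂ ×
      Matrix (Fin n) (Fin n) ℂ | ∃ X ∈ T, ∃ M, Rel B X M ∧ p = (toC X, cq M)},
      CmA K p.1 → p.2 * cxm N = cxm N * p.2) :
    ∀ p ∈ pC B T, p.1 ∈ KC (A := A) K → p.2 * cxm N = cxm N * p.2 := by
  intro p hp h0
  have key : ∀ p ∈ pC B T, ∃ x, matE (2 * g) x = p.1 ∧ (x, p.2) ∈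
      Submodule.span ℂ {p : Matrix (Fin (2 * g)) (Fin (2 * g)) ℂ × Matrix (Fin n) (Fin n) ℂ |
        ∃ X ∈ T, ∃ M, Rel B X M ∧ p = (toC X, cq M)} := by
    intro p hp
    induction hp using Submodule.span_induction with
    | mem p hp =>
      obtain ⟨X, hX, M, hM, rfl⟩ := hp
      exact ⟨toC X, matE_toC X, Submodule.subset_span ⟨X, hX, M, hM, rfl⟩⟩
    | zero => exact ⟨0, map_zero _, Submodule.zero_mem _⟩
    | add p q _ _ hp hq =>
      obtain ⟨x, hx, hx'⟩ := hp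
      obtain ⟨y, hy, hy'⟩ := hq
      exact ⟨x + y, by rw [map_add, hx, hy]; rfl, Submodule.add_mem _ hx' hy'⟩
    | smul c p _ hp =>
      obtain ⟨x, hx, hx'⟩ := hp
      exact ⟨c • x, by rw [map_smul, hx]; rfl, Submodule.smul_mem _ c hx'⟩
  obtain ⟨x, hx, hx'⟩ := key p hp
  refine hα _ hx' ?_
  rw [mem_KC, ← hx, AlgEquiv.symm_apply_apply] at h0
  exact h0

end motive

end Pool.Agent.D0H89.GC
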