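import Pool.Agent.D0H89.GC.Alg
import Mathlib.LinearAlgebra.Eigenspace.Triangularizable
import Mathlib.Analysis.Complex.Polynomial.Basic

set_option autoImplicit false
set_option linter.unusedSectionVars false
set_option linter.unusedSimpArgs false
set_option linter.unusedVariables false

/-!
# Simple ideals and positivity
-/

open Module

noncomputable section

namespace Pool.Agent.D0H89.GC

variable {R : Type} [Ring R] [Algebra ℂ R] {I : Type} [Fintype I] [DecidableEq I]

/-- A positive real structure. -/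
structure Rl (M : Submodule ℂ R) (c : R ≃+* R) (tr : R →ₗ[ℂ] ℂ) (J : R) : Prop where
  cc : ∀ x, c (c x) = x
  cs : ∀ (a : ℂ) x, c (a • x) = (starRingEnd ℂ a) • c x
  tm : ∀ x y, tr (x * y) = tr (y * x)
  tc : ∀ x, tr (c x) = starRingEnd ℂ (tr x)
  JM : J ∈ M
  JJ : J * J = -1
  cJ : c J = J
  cM : ∀ X ∈ M, c X ∈ M
  pos : ∀ Y ∈ M, c Y = Y → Y ≠ 0 → 0 < (tr (Y * J * Y * J)).re

/-- The hermitian form. -/
def Hf (c : R ≃+* R) (tr : R →ₗ[ℂ] ℂ) (J : R) (x y : R) : ℂ := tr (x * (J * c y * J))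

namespace Rl

variable {M : Submodule ℂ R} {c : R ≃+* R} {tr : R →ₗ[ℂ] ℂ} {J : R} (h : Rl M c tr J)
include h

theorem pos_c {x : R} (hx : x ∈ M) (h0 : x ≠ 0) : 0 < (Hf c tr J x x).re := by
  obtain ⟨t, ht⟩ : ∃ t, t = Hf c tr J x x := ⟨_, rfl⟩
  obtain ⟨y, hy⟩ : ∃ y, y = c x := ⟨_, rfl⟩
  have hyM : y ∈ M := hy ▸ h.cM x hx
  have hcy : c y = x := by rw [hy, h.cc]
  have e0 : tr (x * J * y * J) = t := by
    rw [ht, Hf, hy]
    simp only [mul_assoc]
  have e1 : tr (y * J * x * J) = t := by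
    rw [mul_assoc (y * J), h.tm, ← e0]
    simp only [mul_assoc]
  have s1 : c (x + y) = x + y := by rw [map_add, hcy, ← hy, add_comm]
  have s2 : c (Complex.I • x - Complex.I • y) = Complex.I • x - Complex.I • y := by
    rw [map_sub, h.cs, h.cs, hcy, ← hy, Complex.conj_I]
    module
  have p1 : tr ((x + y) * J * (x + y) * J) + tr ((Complex.I • x - Complex.I • y) * J *
      (Complex.I • x - Complex.I • y) * J) = 4 * t := by
    have e2 : (x + y) * J * (x + y) * J = x * J * x * J + x * J * y * J + y * J * x * J +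
        y * J * y * J := by
      simp only [add_mul, mul_add]
      abel
    have e3 : (Complex.I • x - Complex.I • y) * J * (Complex.I • x - Complex.I • y) * J =
        x * J * y * J + y * J * x * J - x * J * x * J - y * J * y * J := by
      have e4 : (Complex.I • x - Complex.I • y) = Complex.I • (x - y) := by rw [smul_sub]
      have e5 : Complex.I • (x - y) * J * (Complex.I • (x - y)) * J =
          -((x - y) * J * (x - y) * J) := by
        rw [smul_mul_assoc, smul_mul_assoc, mul_smul_comm, smul_smul, Complex.I_mul_I,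
          neg_one_smul, neg_mul]
      rw [e4, e5]
      simp only [sub_mul, mul_sub]
      abel
    rw [e2, e3]
    simp only [map_add, map_sub, e0, e1]
    ring
  have q1 : ∀ z ∈ M, c z = z → 0 ≤ (tr (z * J * z * J)).re := by
    intro z hz hcz
    by_cases h1 : z = 0
    · rw [h1, zero_mul, zero_mul, zero_mul, map_zero, Complex.zero_re]
    · exact (h.pos z hz hcz h1).le
  have m1 : x + y ∈ M := M.add_mem hx hyM
  have m2 : Complex.I • x - Complex.I • y ∈ M := M.sub_mem (M.smul_mem _ hx) (M.smul_mem _ hyM)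
  have r1 := congrArg Complex.re p1
  rw [Complex.add_re] at r1
  have r2 : (4 * t).re = 4 * t.re := by simp
  rw [r2] at r1
  rw [← ht]
  by_cases hz : x + y = 0
  · have h1 : Complex.I • x - Complex.I • y ≠ 0 := by
      intro h2
      rw [← smul_sub] at h2
      have h3 := (smul_eq_zero.1 h2).resolve_left Complex.I_ne_zero
      apply h0
      have h4 : (2 : ℂ) • x = 0 := by
        have h5 : (2 : ℂ) • x = (x + y) + (x - y) := by module
        rw [h5, hz, h3, add_zero]
      exact (smul_eq_zero.1 h4).resolve_left two_ne_zero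
    have h2 := h.pos _ m2 s2 h1
    have h3 := q1 _ m1 s1
    linarith
  · have h2 := h.pos _ m1 s1 hz
    have h3 := q1 _ m2 s2
    linarith

theorem conj_Hf (x y : R) : starRingEnd ℂ (Hf c tr J x y) = Hf c tr J y x := by
  unfold Hf
  rw [← h.tc, map_mul c, map_mul c, map_mul c, h.cJ, h.cc]
  have h1 : c x * (J * y * J) = (c x * J) * (y * J) := by simp only [mul_assoc]
  rw [h1, h.tm]
  simp only [mul_assoc]

omit h in
theorem Hf_smul_left (a : ℂ) (x y : R) : Hf c tr J (a • x) y = a * Hf c tr J x y := by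
  unfold Hf
  rw [smul_mul_assoc, map_smul, smul_eq_mul]

theorem Hf_smul_right (a : ℂ) (x y : R) :
    Hf c tr J x (a • y) = starRingEnd ℂ a * Hf c tr J x y := by
  unfold Hf
  rw [h.cs, mul_smul_comm, smul_mul_assoc, mul_smul_comm, map_smul, smul_eq_mul]

/-- The adjoint action of a real element which anticommutes with `J` is self-adjoint. -/
theorem Hf_anti {Z : R} (hc : c Z = Z) (hJ : J * Z = -(Z * J)) (x y : R) :
    Hf c tr J (Z * x - x * Z) y = Hf c tr J x (Z * y - y * Z) := by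
  unfold Hf
  rw [map_sub c, map_mul c, map_mul c, hc]
  have h1 : tr ((Z * x - x * Z) * (J * c y * J)) = tr (x * ((J * c y * J) * Z -
      Z * (J * c y * J))) := by
    rw [sub_mul, mul_sub, map_sub, map_sub, mul_assoc Z x, h.tm Z]
    simp only [mul_assoc]
  rw [h1]
  congr 2
  have e1 : J * c y * J * Z = -(J * c y * Z * J) := by
    rw [mul_assoc (J * c y), hJ, mul_neg]
    simp only [mul_assoc]
  have e2 : Z * (J * c y * J) = -(J * Z * c y * J) := by
    rw [hJ]
    simp only [mul_assoc, neg_mul, neg_neg]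
  rw [e1, e2, mul_sub, sub_mul]
  simp only [mul_assoc]
  abel

/-- The adjoint action of a real element which commutes with `J` is skew. -/
theorem Hf_comm {W : R} (hc : c W = W) (hJ : J * W = W * J) (x y : R) :
    Hf c tr J (W * x - x * W) y = -Hf c tr J x (W * y - y * W) := by
  unfold Hf
  rw [map_sub c, map_mul c, map_mul c, hc]
  have h1 : tr ((W * x - x * W) * (J * c y * J)) = tr (x * ((J * c y * J) * W -
      W * (J * c y * J))) := by
    rw [sub_mul, mul_sub, map_sub, map_sub, mul_assoc W x, h.tm W]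
    simp only [mul_assoc]
  rw [h1, ← map_neg]
  congr 1
  have e1 : J * c y * J * W = J * c y * W * J := by
    rw [mul_assoc (J * c y), hJ]
    simp only [mul_assoc]
  have e2 : W * (J * c y * J) = J * W * c y * J := by
    rw [hJ]
    simp only [mul_assoc]
  rw [e1, e2]
  simp only [mul_sub, sub_mul, mul_assoc]
  abel

/-- An ideal is stable under `y ↦ J y J`. -/
theorem JyJ {L : Submodule ℂ R} (hL : ∀ X ∈ M, ∀ y ∈ L, X * y - y * X ∈ L) {y : R} (hy : y ∈ L) :
    J * y * J ∈ L := by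
  have h1 := hL J h.JM _ (hL J h.JM y hy)
  have e1 : J * (J * y) = -y := by rw [← mul_assoc, h.JJ, neg_one_mul]
  have e2 : y * J * J = -y := by rw [mul_assoc, h.JJ, mul_neg_one]
  have e3 : J * y * J = (-(1 / 2 : ℂ)) • (J * (J * y - y * J) - (J * y - y * J) * J) - y := by
    rw [mul_sub, sub_mul, e1, e2, ← mul_assoc]
    module
  rw [e3]
  exact L.sub_mem (L.smul_mem _ h1) hy

end Rl

/-- A family of different simple ideals. -/
structure Cs (K : I → Submodule ℂ R) (M : Submodule ℂ R) : Prop where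
  le : ∀ i, K i ≤ M
  ideal : ∀ i, ∀ X ∈ M, ∀ a ∈ K i, X * a - a * X ∈ K i
  simple : ∀ i, ∀ L ≤ K i, (∀ a ∈ K i, ∀ b ∈ L, a * b - b * a ∈ L) → L = ⊥ ∨ L = K i
  nab : ∀ i, ∃ a ∈ K i, ∃ b ∈ K i, a * b - b * a ≠ 0
  inj : ∀ i k, K i = K k → i = k

namespace Cs

variable {K : I → Submodule ℂ R} {M : Submodule ℂ R} (h : Cs K M)
include h

theorem le_eq {i k : I} (hik : K i ≤ K k) : i = k := by
  apply h.inj
  rcases h.simple k (K i) hik (fun a ha b hb => h.ideal i a (h.le k ha) b hb) with h1 | h1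
  · exfalso
    obtain ⟨a, ha, b, hb, hne⟩ := h.nab i
    have h2 := h.ideal i a (h.le i ha) b hb
    rw [h1, Submodule.mem_bot] at h2
    exact hne h2
  · exact h1

theorem cb : Cb K M where
  le := h.le
  br i a ha b hb := h.ideal i a (h.le i ha) b hb
  simple := h.simple
  nab := h.nab
  comm := by
    intro i k hik a ha b hb
    rcases h.simple i (K i ⊓ K k) inf_le_left (fun x hx y hy =>
      ⟨h.ideal i x (h.le i hx) y hy.1, h.ideal k x (h.le i hx) y hy.2⟩) with h1 | h1
    · have h2 : a * b - b * a ∈ K i ⊓ K k := by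
        refine ⟨?_, h.ideal k a (h.le i ha) b hb⟩
        have h3 := h.ideal i b (h.le k hb) a ha
        have h4 : a * b - b * a = -(b * a - a * b) := by abel
        rw [h4]
        exact (K i).neg_mem h3
      rw [h1, Submodule.mem_bot] at h2
      exact sub_eq_zero.1 h2
    · exact absurd (h.le_eq (inf_eq_left.1 h1)) hik

/-- Different colours are orthogonal for the trace form. -/
theorem tr_zero {tr : R →ₗ[ℂ] ℂ} (htr : ∀ x y, tr (x * y) = tr (y * x)) {i k : I} (hik : i ≠ k)
    {x y : R} (hx : x ∈ K i) (hy : y ∈ K k) : tr (x * y) = 0 := by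
  have h1 := h.cb.perfect i hx
  clear hx
  induction h1 using Submodule.span_induction with
  | mem x hx =>
    obtain ⟨a, ha, b, hb, rfl⟩ := hx
    rw [sub_mul, map_sub, mul_assoc, mul_assoc, htr b, mul_assoc,
      ← h.cb.comm i k hik b hb y hy, sub_self]
  | zero => rw [zero_mul, map_zero]
  | add a b _ _ ha hb => rw [add_mul, map_add, ha, hb, add_zero]
  | smul c a _ ha => rw [smul_mul_assoc, map_smul, ha, smul_zero]

section real

variable {c : R ≃+* R} {tr : R →ₗ[ℂ] ℂ} {J : R} (hr : Rl M c tr J)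
  (hgal : ∀ i, ∃ k, ∀ x ∈ K i, c x ∈ K k)

include hr hgal in
/-- The colours are stable under the complex conjugation. -/
theorem conj_mem (i : I) {x : R} (hx : x ∈ K i) : c x ∈ K i := by
  obtain ⟨k, hk⟩ := hgal i
  by_cases hik : i = k
  · rw [hik]
    exact hk x hx
  by_cases h0 : x = 0
  · rw [h0, map_zero]
    exact (K i).zero_mem
  exfalso
  have h1 := hr.pos_c (h.le i hx) h0
  have h2 : Hf c tr J x x = 0 := h.tr_zero hr.tm hik hx (hr.JyJ (h.ideal k) (hk x hx))
  rw [h2, Complex.zero_re] at h1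
  exact lt_irrefl _ h1

include hr hgal in
theorem tr_nondeg {i : I} {x : R} (hx : x ∈ K i) (h0 : ∀ y ∈ K i, tr (x * y) = 0) : x = 0 := by
  by_contra hne
  have h1 := hr.pos_c (h.le i hx) hne
  have h2 : Hf c tr J x x = 0 := h0 _ (hr.JyJ (h.ideal i) (h.conj_mem hr hgal i hx))
  rw [h2, Complex.zero_re] at h1
  exact lt_irrefl _ h1

include hr hgal in
theorem exists_comp [FiniteDimensional ℂ R] (i : I) {X : R} (hX : X ∈ M) :
    ∃ u ∈ K i, Cm (K i) (X - u) := by
  let B : R →ₗ[ℂ] Dual ℂ (K i) :=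
    { toFun := fun x => (tr.comp (LinearMap.mulLeft ℂ x)).comp (K i).subtype
      map_add' := fun x y => by
        refine LinearMap.ext fun z => ?_
        change tr ((x + y) * (z : R)) = tr (x * z) + tr (y * z)
        rw [add_mul, map_add]
      map_smul' := fun a x => by
        refine LinearMap.ext fun z => ?_
        change tr ((a • x) * (z : R)) = a • tr (x * z)
        rw [smul_mul_assoc, map_smul] }
  have hB : ∀ x (z : K i), B x z = tr (x * z) := fun x z => rfl
  have hinj : Function.Injective (B.comp (K i).subtype) := by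
    rw [← LinearMap.ker_eq_bot, LinearMap.ker_eq_bot']
    intro x hx
    have h1 := h.tr_nondeg hr hgal x.2 fun y hy => by
      have h2 := LinearMap.congr_fun hx ⟨y, hy⟩
      exact h2
    exact Subtype.ext h1
  have hsurj : Function.Surjective (B.comp (K i).subtype) := by
    have h1 : finrank ℂ (K i) = finrank ℂ (Dual ℂ (K i)) := (Subspace.dual_finrank_eq).symm
    exact (LinearMap.injective_iff_surjective_of_finrank_eq_finrank h1).1 hinj
  obtain ⟨u, hu⟩ := hsurj (B X)
  have h0 : ∀ y ∈ K i, tr ((X - u) * y) = 0 := by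
    intro y hy
    have h1 := LinearMap.congr_fun hu ⟨y, hy⟩
    have h2 : tr ((u : R) * y) = tr (X * y) := h1
    rw [sub_mul, map_sub, h2, sub_self]
  refine ⟨u, u.2, fun a ha => ?_⟩
  have h1 : (X - u) * a - a * (X - u) ∈ K i :=
    h.ideal i _ (M.sub_mem hX (h.le i u.2)) a ha
  refine sub_eq_zero.1 (h.tr_nondeg hr hgal h1 fun b hb => ?_)
  have h2 := h0 (a * b - b * a) (h.cb.br i a ha b hb)
  rw [mul_sub, map_sub] at h2
  rw [sub_mul, map_sub, mul_assoc, mul_assoc, hr.tm a, mul_assoc]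
  exact h2

include hr hgal in
/-- The elements have components. -/
theorem cl [FiniteDimensional ℂ R] : Cl K M where
  toCb := h.cb
  dec := by
    intro X hX
    choose ξ hξ hξ' using fun i => h.exists_comp hr hgal i hX
    refine ⟨ξ, hξ, fun k a ha => ?_⟩
    have h1 := hξ' k a ha
    have h2 : (∑ i, ξ i) * a - a * ∑ i, ξ i = ξ k * a - a * ξ k := by
      rw [Finset.sum_mul, Finset.mul_sum, ← Finset.sum_sub_distrib, Finset.sum_eq_single k]
      · intro l _ hl
        rw [h.cb.comm l k hl _ (hξ l) a ha, sub_self]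
      · intro h4
        exact absurd (Finset.mem_univ _) h4
    rw [← sub_eq_zero] at h1 ⊢
    have h3 : (X - ∑ i, ξ i) * a - a * (X - ∑ i, ξ i) =
        (X - ξ k) * a - a * (X - ξ k) + (ξ k * a - a * ξ k) -
          ((∑ i, ξ i) * a - a * ∑ i, ξ i) := by
      simp only [sub_mul, mul_sub]
      abel
    rw [h3, h1, h2, zero_add, sub_self]

end real

end Cs

namespace Cl

variable {K : I → Submodule ℂ R} {M : Submodule ℂ R} (h : Cl K M)
include h

theorem ideal (i : I) {X a : R} (hX : X ∈ M) (ha : a ∈ K i) : X * a - a * X ∈ K i := by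
  obtain ⟨ξ, hξ⟩ := h.dec X hX
  rw [h.br_col hξ ha]
  exact h.br i _ (hξ.mem i) a ha

variable {c : R ≃+* R} {tr : R →ₗ[ℂ] ℂ} {J : R} (hr : Rl M c tr J)
  (hcK : ∀ i, ∀ x ∈ K i, c x ∈ K i)

include hr hcK in
/-- The components of the conjugate. -/
theorem dec_conj {X : R} {ξ : I → R} (hξ : Dec K X ξ) : Dec K (c X) (fun i => c (ξ i)) := by
  refine ⟨fun i => hcK i _ (hξ.mem i), fun i a ha => ?_⟩
  have h1 := hξ.rest i (c a) (hcK i a ha)
  have h2 : c X - ∑ i, c (ξ i) = c (X - ∑ i, ξ i) := by rw [map_sub, map_sum]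
  rw [h2]
  conv_lhs => rw [← hr.cc a]
  conv_rhs => rw [← hr.cc a]
  rw [← map_mul, ← map_mul, h1]

include hr hcK in
/-- A noncompact colour has an eigenvector with a nonzero real eigenvalue. -/
theorem exists_eig [FiniteDimensional ℂ R] {k : I} (hk : ¬ Cm (K k) J) :
    ∃ Z ∈ K k, c Z = Z ∧ ∃ v ∈ K k, v ≠ 0 ∧ ∃ μ : ℂ, μ ≠ 0 ∧ starRingEnd ℂ μ = μ ∧
      Z * v - v * Z = μ • v := by
  obtain ⟨y, hy, hyc, hyJ⟩ : ∃ y ∈ K k, c y = y ∧ J * y - y * J ≠ 0 := by
    by_contra hcon
    push Not at hcon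
    apply hk
    intro a ha
    have g1 := hcon (a + c a) ((K k).add_mem ha (hcK k a ha)) (by
      rw [map_add, hr.cc, add_comm])
    have g2 := hcon (Complex.I • a - Complex.I • c a)
      ((K k).sub_mem ((K k).smul_mem _ ha) ((K k).smul_mem _ (hcK k a ha))) (by
        rw [map_sub, hr.cs, hr.cs, hr.cc, Complex.conj_I]
        module)
    have g4 : J * (Complex.I • a - Complex.I • c a) - (Complex.I • a - Complex.I • c a) * J =
        Complex.I • ((J * a - a * J) - (J * c a - c a * J)) := by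
      simp only [mul_sub, sub_mul, mul_smul_comm, smul_mul_assoc, smul_sub]
      abel
    rw [g4] at g2
    have g5 := (smul_eq_zero.1 g2).resolve_left Complex.I_ne_zero
    have g6 : (2 : ℂ) • (J * a - a * J) = 0 := by
      have g7 : (2 : ℂ) • (J * a - a * J) = (J * (a + c a) - (a + c a) * J) +
          ((J * a - a * J) - (J * c a - c a * J)) := by
        simp only [mul_add, add_mul]
        module
      rw [g7, g1, g5, add_zero]
    exact sub_eq_zero.1 ((smul_eq_zero.1 g6).resolve_left two_ne_zero)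
  obtain ⟨Z, hZ⟩ : ∃ Z, Z = J * y - y * J := ⟨_, rfl⟩
  have hZK : Z ∈ K k := hZ ▸ h.ideal k hr.JM hy
  have hZ0 : Z ≠ 0 := hZ ▸ hyJ
  have hcZ : c Z = Z := by rw [hZ, map_sub, map_mul, map_mul, hr.cJ, hyc]
  have hZJ : J * Z = -(Z * J) := by
    rw [hZ, mul_sub, sub_mul, ← mul_assoc, hr.JJ, mul_assoc y J J, hr.JJ, neg_one_mul,
      mul_neg_one, ← mul_assoc]
    abel
  let ad : R →ₗ[ℂ] R := LinearMap.mulLeft ℂ Z - LinearMap.mulRight ℂ Z
  have had : ∀ x, ad x = Z * x - x * Z := fun x => rfl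
  let V : Submodule ℂ R := (K k).map ad
  have hVK : V ≤ K k := by
    rintro _ ⟨x, hx, rfl⟩
    rw [had]
    exact h.br k Z hZK x hx
  have hV0 : V ≠ ⊥ := by
    intro h1
    apply hZ0
    refine h.centre hZK fun a ha => ?_
    have h2 : ad a ∈ V := ⟨a, ha, rfl⟩
    rw [h1, Submodule.mem_bot, had] at h2
    exact sub_eq_zero.1 h2
  have hinj : ∀ v ∈ V, ad v = 0 → v = 0 := by
    rintro _ ⟨x, hx, rfl⟩ h1
    by_contra hne
    have h2 := hr.pos_c (h.le k (hVK ⟨x, hx, rfl⟩)) hne
    have h3 : Hf c tr J (ad x) (ad x) = 0 := by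
      rw [had x, hr.Hf_anti hcZ hZJ, ← had (Z * x - x * Z), ← had x, h1, Hf, map_zero, mul_zero,
        zero_mul, mul_zero, map_zero]
    rw [h3, Complex.zero_re] at h2
    exact lt_irrefl _ h2
  let f : V →ₗ[ℂ] V := ad.restrict (p := V) (q := V) fun v hv => ⟨v, hVK hv, rfl⟩
  have : Nontrivial V := by
    rw [Submodule.nontrivial_iff_ne_bot]
    exact hV0
  obtain ⟨μ, hμ⟩ := Module.End.exists_eigenvalue f
  obtain ⟨v, hv⟩ := hμ.exists_hasEigenvector
  have hv0 : (v : R) ≠ 0 := fun h1 => hv.2 (Subtype.ext h1)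
  have hv1 : ad (v : R) = μ • (v : R) := by
    have h1 := congrArg Subtype.val hv.apply_eq_smul
    exact h1
  have hμ0 : μ ≠ 0 := by
    intro h1
    rw [h1, zero_smul] at hv1
    exact hv0 (hinj _ v.2 hv1)
  refine ⟨Z, hZK, hcZ, v, hVK v.2, hv0, μ, hμ0, ?_, ?_⟩
  · have h1 := hr.Hf_anti hcZ hZJ (v : R) v
    rw [← had, hv1, Rl.Hf_smul_left, hr.Hf_smul_right] at h1
    have h2 := hr.pos_c (h.le k (hVK v.2)) hv0
    have h3 : Hf c tr J (v : R) v ≠ 0 := by
      intro h4
      rw [h4, Complex.zero_re] at h2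
      exact lt_irrefl _ h2
    exact (mul_right_cancel₀ h3 h1).symm
  · rw [← had, hv1]

include hr hcK in
/-- A colour which is linked with a compact colour is compact. -/
theorem compact_of_lk [FiniteDimensional ℂ R] {L : Submodule ℂ R} (hLM : L ≤ M)
    (hcL : ∀ X ∈ L, c X ∈ L) (hLbr : ∀ X ∈ L, ∀ Y ∈ L, X * Y - Y * X ∈ L)
    (hsur : ∀ i, ∀ x ∈ K i, ∃ ξ ∈ XK K L, ξ i = x) {i k : I} (hik : Lk K L i k)
    (hi : Cm (K i) J) : Cm (K k) J := by
  by_contra hk
  obtain ⟨Z, hZK, hcZ, v, hvK, hv0, μ, hμ0, hμ, hv⟩ := h.exists_eig hr hcK hk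
  obtain ⟨ξ, ⟨X, hX, hξ⟩, hξk⟩ := hsur k Z hZK
  have hXX : X + c X ∈ L := L.add_mem hX (hcL X hX)
  have hdd : Dec K (X + c X) (ξ + fun i => c (ξ i)) := hξ.add (h.dec_conj hr hcK hξ)
  obtain ⟨ζ, hζ⟩ : ∃ ζ : I → R, ζ = ξ + fun i => c (ξ i) := ⟨_, rfl⟩
  rw [← hζ] at hdd
  have hζk : ζ k = (2 : ℂ) • Z := by
    rw [hζ, Pi.add_apply, hξk, hcZ]
    module
  have hW : c (ζ i) = ζ i := by
    rw [hζ, Pi.add_apply, map_add, hr.cc, add_comm]
  obtain ⟨η, hη, hηk⟩ := hsur k v hvK
  have hmem := Submodule.sub_mem _ (h.XK_br hLbr ζ ⟨_, hXX, hdd⟩ η hη)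
    (Submodule.smul_mem _ (2 * μ) hη)
  have h1 := (h.lk_iff hLM).1 hik _ hmem (by
    rw [Pi.sub_apply, Pi.smul_apply, hηk, hζk, smul_mul_assoc, mul_smul_comm, ← smul_sub, hv,
      smul_smul, sub_self])
  rw [Pi.sub_apply, Pi.smul_apply, sub_eq_zero] at h1
  have hu0 : η i ≠ 0 := by
    intro h2
    have h3 := (h.lk_iff hLM).1 (h.lk_symm hLM hLbr hsur hik) η hη h2
    rw [hηk] at h3
    exact hv0 h3
  have huM : η i ∈ M := by
    obtain ⟨Y, _, hY⟩ := hη
    exact h.le i (hY.mem i)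
  have h2 := hr.Hf_comm hW (hi _ (hdd.mem i)) (η i) (η i)
  rw [h1, Rl.Hf_smul_left, hr.Hf_smul_right, map_mul, hμ] at h2
  have h3 := hr.pos_c huM hu0
  have h4 : Hf c tr J (η i) (η i) ≠ 0 := by
    intro h4
    rw [h4, Complex.zero_re] at h3
    exact lt_irrefl _ h3
  have h5 : (starRingEnd ℂ) (2 : ℂ) = 2 := Complex.conj_ofNat 2
  rw [h5] at h2
  have h6 : (2 * μ) * Hf c tr J (η i) (η i) = 0 := by linear_combination h2 / 2
  rcases mul_eq_zero.1 h6 with h7 | h7
  · exact hμ0 ((mul_eq_zero.1 h7).resolve_left two_ne_zero)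
  · exact h4 h7

end Cl

end Pool.Agent.D0H89.GC
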