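import Pool.Agent.D0H89.GC.Av

set_option autoImplicit false
set_option linter.unusedSectionVars false
set_option linter.unusedSimpArgs false
set_option linter.unusedVariables false

/-!
# Linkings
-/

open Module Function TensorProduct Matrix

noncomputable section

namespace Pool.Agent.D0H89.GC

section alg

variable {R : Type} [Ring R] [Algebra ℂ R] {I : Type} [Fintype I] [DecidableEq I]
  {K : I → Submodule ℂ R} {M : Submodule ℂ R}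

/-- The map `θ` is an isomorphism of Lie algebras from `L` to `L'`. -/
structure IsoL (L L' : Submodule ℂ R) (θ : R → R) : Prop where
  mem : ∀ x ∈ L, θ x ∈ L'
  add : ∀ x ∈ L, ∀ y ∈ L, θ (x + y) = θ x + θ y
  smul : ∀ (a : ℂ), ∀ x ∈ L, θ (a • x) = a • θ x
  br : ∀ x ∈ L, ∀ y ∈ L, θ (x * y - y * x) = θ x * θ y - θ y * θ x
  inj : ∀ x ∈ L, θ x = 0 → x = 0
  surj : ∀ y ∈ L', ∃ x ∈ L, θ x = y

/-- The isomorphism given by a link. -/
theorem Cl.exists_iso (h : Cl K M) {L : Submodule ℂ R} (hLM : L ≤ M)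
    (hLbr : ∀ X ∈ L, ∀ Y ∈ L, X * Y - Y * X ∈ L)
    (hsur : ∀ i, ∀ x ∈ K i, ∃ ξ ∈ XK K L, ξ i = x) {i k : I} (hik : Lk K L i k) :
    ∃ θ : R → R, IsoL (K i) (K k) θ ∧ ∀ ξ ∈ XK K L, θ (ξ i) = ξ k := by
  classical
  have hki := h.lk_symm hLM hLbr hsur hik
  have key : ∀ x, ∃ y, ∀ ξ ∈ XK K L, ξ i = x → ξ k = y := by
    intro x
    by_cases hx : ∃ ξ ∈ XK K L, ξ i = x
    · obtain ⟨ξ, hξ, h1⟩ := hx
      refine ⟨ξ k, fun η hη h2 => ?_⟩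
      have h3 := (h.lk_iff hLM).1 hki (η - ξ) (Submodule.sub_mem _ hη hξ) (by
        rw [Pi.sub_apply, h1, h2, sub_self])
      rw [Pi.sub_apply] at h3
      exact sub_eq_zero.1 h3
    · exact ⟨0, fun ξ hξ h1 => absurd ⟨ξ, hξ, h1⟩ hx⟩
  choose θ hθ using key
  have hθ' : ∀ ξ ∈ XK K L, θ (ξ i) = ξ k := fun ξ hξ => (hθ _ ξ hξ rfl).symm
  have hmem : ∀ ξ ∈ XK K L, ∀ l, ξ l ∈ K l := by
    rintro ξ ⟨X, _, hξ⟩ l
    exact hξ.mem l
  refine ⟨θ, ⟨fun x hx => ?_, fun x hx y hy => ?_, fun a x hx => ?_, fun x hx y hy => ?_,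
    fun x hx h0 => ?_, fun y hy => ?_⟩, hθ'⟩
  · obtain ⟨ξ, hξ, rfl⟩ := hsur i x hx
    rw [hθ' ξ hξ]
    exact hmem ξ hξ k
  · obtain ⟨ξ, hξ, rfl⟩ := hsur i x hx
    obtain ⟨η, hη, rfl⟩ := hsur i y hy
    have h1 := hθ' _ (Submodule.add_mem _ hξ hη)
    rw [Pi.add_apply, Pi.add_apply] at h1
    rw [h1, hθ' ξ hξ, hθ' η hη]
  · obtain ⟨ξ, hξ, rfl⟩ := hsur i x hx
    have h1 := hθ' _ (Submodule.smul_mem _ a hξ)
    rw [Pi.smul_apply, Pi.smul_apply] at h1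
    rw [h1, hθ' ξ hξ]
  · obtain ⟨ξ, hξ, rfl⟩ := hsur i x hx
    obtain ⟨η, hη, rfl⟩ := hsur i y hy
    have h1 := hθ' _ (h.XK_br hLbr ξ hξ η hη)
    rw [hθ' ξ hξ, hθ' η hη]
    exact h1
  · obtain ⟨ξ, hξ, rfl⟩ := hsur i x hx
    rw [hθ' ξ hξ] at h0
    exact (h.lk_iff hLM).1 hik ξ hξ h0
  · obtain ⟨ξ, hξ, rfl⟩ := hsur k y hy
    exact ⟨ξ i, hmem ξ hξ i, hθ' ξ hξ⟩

end alg

open Pool.Agent.Y102 Pool.Agent.W516.DR Pool.Agent.H204R3.GP Pool.Agent.W516.KC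
  Pool.Agent.H204R3.SP Pool.Agent.TH119.MX Pool.Agent.R917 Pool.Agent.N208.AM Pool.Agent.N113.BT
  Pool.Agent.D0H89.TL

variable {g : ℕ} {A : AbVar g} {I : Type} [Fintype I] [DecidableEq I]
  {K : I → Submodule ℂ (Matrix (Fin (2 * g)) (Fin (2 * g)) ℂ)}

/-- A linking of the colours. -/
structure Lnkg (A : AbVar g) (K : I → Submodule ℂ (Matrix (Fin (2 * g)) (Fin (2 * g)) ℂ))
    (r : I → I → Prop)
    (θ : I → I → Matrix (Fin (2 * g)) (Fin (2 * g)) ℂ → Matrix (Fin (2 * g)) (Fin (2 * g)) ℂ) :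
    Prop where
  equiv : Equivalence r
  iso : ∀ i k, r i k → IsoL (K i) (K k) (θ i k)
  trans : ∀ i k l, r i k → r k l → ∀ x ∈ K i, θ k l (θ i k x) = θ i l x
  gal : ∀ (τ : ℂ ≃+* ℂ) i k i' k', (∀ x ∈ K i, x.map τ ∈ K i') → (∀ x ∈ K k, x.map τ ∈ K k') →
    r i k → r i' k' ∧ ∀ x ∈ K i, (θ i k x).map τ = θ i' k' (x.map τ)
  cpt : ∀ i k, r i k → Cm (K i) (mR A AbVar.JJ) → Cm (K k) (mR A AbVar.JJ)
  invis : ∀ T : Matrix (Fin (2 * g)) (Fin (2 * g)) ℂ,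
    (∀ X ∈ lC A.NA, ∀ ξ, Dec K X ξ → (∀ i k, r i k → θ i k (ξ i) = ξ k) → T * X = X * T) →
    ∀ X ∈ lC A.NA, T * X = X * T

variable (h : Cs K (lC A.NA)) (hg : Gs K)
include h hg

/-- The projections to conjugate colours. -/
theorem sur_conj {𝔮 : Submodule ℚ (Module.End ℚ A.H1)} (hq : A.Full 𝔮) {i k : I}
    {τ : ℂ ≃+* ℂ} (hτ : ∀ x ∈ K i, x.map τ ∈ K k)
    (hs : ∀ x ∈ K k, ∃ ξ ∈ XK K (lC 𝔮), ξ k = x)
    {x : Matrix (Fin (2 * g)) (Fin (2 * g)) ℂ} (hx : x ∈ K i) :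
    ∃ ξ ∈ XK K (lC 𝔮), ξ i = x := by
  have hcl := cl_av h hg
  rw [sur_iff hcl (lC_mono hq.le) hx]
  obtain ⟨X, hX, h1⟩ := (sur_iff hcl (lC_mono hq.le) (hτ x hx)).1 (hs _ (hτ x hx))
  refine ⟨X.map τ.symm, map_mem_lC τ.symm hX, fun a ha => ?_⟩
  have h2 := congrArg (fun x => Matrix.map x τ.symm) (h1 _ (hτ a ha))
  have hm : ∀ (σ : ℂ ≃+* ℂ) (x y : Matrix (Fin (2 * g)) (Fin (2 * g)) ℂ),
      (x * y).map σ = x.map σ * y.map σ := fun σ x y => Matrix.map_mul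
  have hs' : ∀ (σ : ℂ ≃+* ℂ) (x y : Matrix (Fin (2 * g)) (Fin (2 * g)) ℂ),
      (x - y).map σ = x.map σ - y.map σ := fun σ x y => Matrix.map_sub σ (map_sub σ) x y
  simp only [hm, hs', map_map_symm] at h2
  exact h2

/-- A full subalgebra projects onto all colours which are conjugate to rigid colours. -/
theorem sur_full2 (hR : ∀ i, ∃ k, (∃ τ : ℂ ≃+* ℂ, ∀ x ∈ K i, x.map τ ∈ K k) ∧ Rg A (K k))
    {𝔮 : Submodule ℚ (Module.End ℚ A.H1)} (hq : A.Full 𝔮) (i : I)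
    {x : Matrix (Fin (2 * g)) (Fin (2 * g)) ℂ} (hx : x ∈ K i) :
    ∃ ξ ∈ XK K (lC 𝔮), ξ i = x := by
  obtain ⟨k, ⟨τ, hτ⟩, hk⟩ := hR i
  exact sur_conj h hg hq hτ (fun y hy => sur_rg h hg hk hq hy) hx

/-- The linking of a full subalgebra. -/
theorem lnkg_of {𝔮 : Submodule ℚ (Module.End ℚ A.H1)} (hq : A.Full 𝔮)
    (hsur : ∀ i, ∀ x ∈ K i, ∃ ξ ∈ XK K (lC 𝔮), ξ i = x) : ∃ θ, Lnkg A K (Lk K (lC 𝔮)) θ := by
  classical
  have hcl := cl_av h hg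
  have hLM := lC_mono hq.le
  have key : ∀ i k, ∃ θ : Matrix (Fin (2 * g)) (Fin (2 * g)) ℂ →
      Matrix (Fin (2 * g)) (Fin (2 * g)) ℂ, Lk K (lC 𝔮) i k →
        IsoL (K i) (K k) θ ∧ ∀ ξ ∈ XK K (lC 𝔮), θ (ξ i) = ξ k := by
    intro i k
    by_cases hik : Lk K (lC 𝔮) i k
    · obtain ⟨θ, h1, h2⟩ := hcl.exists_iso hLM (f_br hq) hsur hik
      exact ⟨θ, fun _ => ⟨h1, h2⟩⟩
    · exact ⟨id, fun h1 => absurd h1 hik⟩
  choose θ hθ using key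
  have heq := hcl.lk_equiv hLM (f_br hq) hsur
  refine ⟨θ, heq, fun i k hik => (hθ i k hik).1, fun i k l hik hkl x hx => ?_,
    fun τ i k i' k' hi hk hik => ?_, fun i k hik hi => ?_, fun T hT => ?_⟩
  · obtain ⟨ξ, hξ, rfl⟩ := hsur i x hx
    rw [(hθ i k hik).2 ξ hξ, (hθ k l hkl).2 ξ hξ, (hθ i l (heq.trans hik hkl)).2 ξ hξ]
  · have hik' : Lk K (lC 𝔮) i' k' := lk_gal h hg (fun τ X hX => map_mem_lC τ hX) τ hi hk hik
    refine ⟨hik', fun x hx => ?_⟩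
    obtain ⟨ξ, hξ, rfl⟩ := hsur i x hx
    rw [(hθ i k hik).2 ξ hξ]
    obtain ⟨X, hX, hd⟩ := hξ
    obtain ⟨η, hη⟩ := hcl.dec _ (hLM (map_mem_lC τ hX))
    have key2 : ∀ l l', (∀ x ∈ K l, x.map τ ∈ K l') → η l' = (ξ l).map τ := by
      intro l l' hl
      rw [hcl.comp_col hη (hl _ (hd.mem l))]
      intro b hb
      have h1 := (hcl.comp_col hd (hd.mem l)).1 rfl _ (map_back h hg hl b hb)
      have h2 := congrArg (fun x => Matrix.map x τ) h1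
      have hm : ∀ (σ : ℂ ≃+* ℂ) (x y : Matrix (Fin (2 * g)) (Fin (2 * g)) ℂ),
          (x * y).map σ = x.map σ * y.map σ := fun σ x y => Matrix.map_mul
      have hs' : ∀ (σ : ℂ ≃+* ℂ) (x y : Matrix (Fin (2 * g)) (Fin (2 * g)) ℂ),
          (x - y).map σ = x.map σ - y.map σ := fun σ x y => Matrix.map_sub σ (map_sub σ) x y
      simp only [hm, hs', map_symm_map] at h2
      exact h2
    rw [← key2 i i' hi, ← key2 k k' hk]
    exact ((hθ i' k' hik').2 η ⟨_, map_mem_lC τ hX, hη⟩).symm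
  · exact hcl.compact_of_lk rl_av (fun i x hx => conj_av h hg i hx) hLM
      (fun X hX => map_mem_lC (starRingAut : ℂ ≃+* ℂ) hX) (f_br hq) hsur hik hi
  · refine f_com hq T fun X hX => ?_
    obtain ⟨ξ, hξ⟩ := hcl.dec X (hLM hX)
    exact hT X (hLM hX) ξ hξ fun i k hik => (hθ i k hik).2 ξ ⟨X, hX, hξ⟩

/-- There are no links. -/
theorem no_links2 (hR : ∀ i, ∃ k, (∃ τ : ℂ ≃+* ℂ, ∀ x ∈ K i, x.map τ ∈ K k) ∧ Rg A (K k))
    (hP : ∀ r θ, Lnkg A K r θ → ∀ i k, r i k → i = k)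
    {𝔮 : Submodule ℚ (Module.End ℚ A.H1)} (hq : A.Full 𝔮) (i k : I)
    (hik : Lk K (lC 𝔮) i k) : i = k := by
  obtain ⟨θ, hθ⟩ := lnkg_of h hg hq fun i x hx => sur_full2 h hg hR hq i hx
  exact hP _ θ hθ i k hik

omit h hg in
theorem finrank_iso {L L' : Submodule ℂ (Matrix (Fin (2 * g)) (Fin (2 * g)) ℂ)}
    {θ : Matrix (Fin (2 * g)) (Fin (2 * g)) ℂ → Matrix (Fin (2 * g)) (Fin (2 * g)) ℂ}
    (hθ : IsoL L L' θ) : finrank ℂ L = finrank ℂ L' := by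
  let f : L →ₗ[ℂ] L' :=
    { toFun := fun x => ⟨θ x, hθ.mem x x.2⟩
      map_add' := fun x y => Subtype.ext (hθ.add x x.2 y y.2)
      map_smul' := fun a x => Subtype.ext (hθ.smul a x x.2) }
  have hf : ∀ x : L, ((f x : L') : Matrix (Fin (2 * g)) (Fin (2 * g)) ℂ) = θ x := fun x => rfl
  have h1 : Function.Injective f := by
    rw [← LinearMap.ker_eq_bot, LinearMap.ker_eq_bot']
    intro x hx
    have h2 := congrArg Subtype.val hx
    rw [hf] at h2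
    exact Subtype.ext (hθ.inj x x.2 h2)
  have h2 : Function.Surjective f := by
    intro y
    obtain ⟨x, hx, h3⟩ := hθ.surj y y.2
    exact ⟨⟨x, hx⟩, Subtype.ext h3⟩
  exact (LinearEquiv.ofBijective f ⟨h1, h2⟩).finrank_eq

/-- The numerical criterion. -/
theorem lnkg_num
    (hco : ∀ i, Nat.Coprime (Nat.card {k // ∃ τ : ℂ ≃+* ℂ, ∀ x ∈ K i, x.map τ ∈ K k})
      (Nat.card {k // (∃ τ : ℂ ≃+* ℂ, ∀ x ∈ K i, x.map τ ∈ K k) ∧
        ¬ Cm (K k) (mR A AbVar.JJ)}))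
    (hdi : ∀ i k, finrank ℂ (K i) = finrank ℂ (K k) →
      Nat.card {l // ∃ τ : ℂ ≃+* ℂ, ∀ x ∈ K i, x.map τ ∈ K l} =
        Nat.card {l // ∃ τ : ℂ ≃+* ℂ, ∀ x ∈ K k, x.map τ ∈ K l} →
      Nat.card {l // (∃ τ : ℂ ≃+* ℂ, ∀ x ∈ K i, x.map τ ∈ K l) ∧
        ¬ Cm (K l) (mR A AbVar.JJ)} =
        Nat.card {l // (∃ τ : ℂ ≃+* ℂ, ∀ x ∈ K k, x.map τ ∈ K l) ∧
          ¬ Cm (K l) (mR A AbVar.JJ)} →
      ∃ τ : ℂ ≃+* ℂ, ∀ x ∈ K i, x.map τ ∈ K k) {r : I → I → Prop}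
    {θ : I → I → Matrix (Fin (2 * g)) (Fin (2 * g)) ℂ → Matrix (Fin (2 * g)) (Fin (2 * g)) ℂ}
    (hr : Lnkg A K r θ) {i k : I} (hik : r i k) : i = k :=
  num (m := fun (τ : ℂ ≃+* ℂ) i k => ∀ x ∈ K i, x.map τ ∈ K k) hg
    (fun τ i l k h1 h2 => map_inj h hg h1 h2) (conj_equiv h hg) hr.equiv
    (fun τ i k i' k' hi hk hik => (hr.gal τ i k i' k' hi hk hik).1)
    (nc := fun i => ¬ Cm (K i) (mR A AbVar.JJ))
    (fun i k hik hi hk => hi (hr.cpt k i (hr.equiv.symm hik) hk)) hco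
    (d := fun i => finrank ℂ (K i)) (fun i k hik => finrank_iso (hr.iso i k hik)) hdi hik

section full

variable (hR : ∀ i, ∃ k, (∃ τ : ℂ ≃+* ℂ, ∀ x ∈ K i, x.map τ ∈ K k) ∧ Rg A (K k))
  (hP : ∀ r θ, Lnkg A K r θ → ∀ i k, r i k → i = k)
include hR hP

/-- Full subalgebras contain the brackets, up to elements which commute with the colours. -/
theorem der_full2 {𝔮 : Submodule ℚ (Module.End ℚ A.H1)} (hq : A.Full 𝔮)
    {X : Module.End ℚ A.H1} (hX : X ∈ der A.NA) : ∃ y ∈ lC (der 𝔮), CmA K (toC X - y) := by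
  have hcl := cl_av h hg
  have hno := fun i k hik => no_links2 h hg hR hP hq i k hik
  unfold der at hX
  induction hX using Submodule.span_induction with
  | mem X hX =>
    obtain ⟨X, hX, Y, hY, rfl⟩ := hX
    obtain ⟨X', hX', Y', hY', h1⟩ := hcl.br_mod (lC_mono hq.le) (f_br hq)
      (fun i x hx => sur_full2 h hg hR hq i hx) hno (toC_mem hX) (toC_mem hY)
    refine ⟨X' * Y' - Y' * X', ?_, ?_⟩
    · rw [mem_lC, map_sub, map_mul, map_mul]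
      refine cx_br (T := cx (der 𝔮)) (fun X hX Y hY => ?_) _ (mem_lC.1 hX') _ (mem_lC.1 hY')
      rw [← bc_br]
      exact bc_mem (Submodule.subset_span ⟨X, hX, Y, hY, rfl⟩)
    · have h2 : toC (X * Y - Y * X) = toC X * toC Y - toC Y * toC X := by
        apply (matE (2 * g)).injective
        rw [matE_toC, map_sub, map_mul, map_mul, matE_toC, matE_toC, bc_br]
      rw [h2]
      exact h1
  | zero =>
    refine ⟨0, Submodule.zero_mem _, ?_⟩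
    have h2 : toC (0 : Module.End ℚ A.H1) = 0 := by
      apply (matE (2 * g)).injective
      rw [matE_toC, map_zero, LinearMap.baseChange_zero]
    rw [h2, sub_zero]
    exact fun i => Cm.zero
  | add a b _ _ ha hb =>
    obtain ⟨x, hx, h1⟩ := ha
    obtain ⟨y, hy, h2⟩ := hb
    refine ⟨x + y, Submodule.add_mem _ hx hy, fun i => ?_⟩
    have h3 : toC (a + b) = toC a + toC b := by
      apply (matE (2 * g)).injective
      rw [matE_toC, map_add, matE_toC, matE_toC, LinearMap.baseChange_add]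
    have h4 : toC (a + b) - (x + y) = (toC a - x) + (toC b - y) := by rw [h3]; abel
    rw [h4]
    exact (h1 i).add (h2 i)
  | smul c a _ ha =>
    obtain ⟨x, hx, h1⟩ := ha
    refine ⟨(c : ℂ) • x, Submodule.smul_mem _ _ hx, fun i => ?_⟩
    have h3 : toC (c • a) = (c : ℂ) • toC a := by
      ext i j
      simp [toC]
    rw [h3, ← smul_sub]
    exact (h1 i).smul _

theorem K2_of2 {𝔮 : Submodule ℚ (Module.End ℚ A.H1)} (hq : A.Full 𝔮) :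
    ∀ X ∈ der A.NA, ∃ y ∈ cx (der 𝔮), X.baseChange ℂ - y ∈ KC (A := A) K := by
  intro X hX
  obtain ⟨y, hy, h1⟩ := der_full2 h hg hR hP hq hX
  refine ⟨matE (2 * g) y, mem_lC.1 hy, ?_⟩
  rw [mem_KC, map_sub, AlgEquiv.symm_apply_apply, ← matE_toC, AlgEquiv.symm_apply_apply]
  exact h1

end full

end Pool.Agent.D0H89.GC
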